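import Pool.Agent.Y5.Stm2

/-!
Definitions for the Navier-Stokes equations with additional linear dissipation
(periodic, odd fields, written with sine series).
-/

open Set Filter Topology MeasureTheory

set_option autoImplicit false

namespace Pool.Agent.Y5.D

/-! ### Abstract quadratic systems -/

/-- the quadratic term -/
noncomputable def qd {I : Type} (c : I → I → I → ℝ) (z : I → ℝ) (i : I) : ℝ :=
  ∑' p : I × I, c i p.1 p.2 * z p.1 * z p.2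

/-- Regular solutions of `z i' = - d i * z i + ∑ c i a b * z a * z b` on `[0, T)`
(`κ` is a weight). -/
structure ASol {I : Type} (d κ : I → ℝ) (c : I → I → I → ℝ) (T : ℝ) (z : I → ℝ → ℝ) : Prop where
  deriv : ∀ i, ∀ t ∈ Ico 0 T,
    HasDerivWithinAt (z i) (-(d i * z i t) + qd c (fun a => z a t) i) (Ico 0 T) t
  bdd : ∀ T' < T, ∃ M, ∀ t ∈ Icc 0 T', ∀ i, κ i * |z i t| ≤ M

/-- Index set: `Sum.inl n` is the main mode of the group `n`, `Sum.inr j` are the other modes. -/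
abbrev Ix (J : Type) := ℕ ⊕ J

/-- the group of a mode -/
def gr {J : Type} (g : J → ℕ) : Ix J → ℕ
  | Sum.inl n => n
  | Sum.inr j => g j

/-- damping rates: `ℓ n` for the main modes, `S n ^ 4` for the other modes of the group `n` -/
noncomputable def dI {J : Type} (ℓ S : ℕ → ℝ) (g : J → ℕ) : Ix J → ℝ
  | Sum.inl n => ℓ n
  | Sum.inr j => S (g j) ^ 4

/-- weights: `L n ^ 10` for the main modes, `S n` for the other modes of the group `n` -/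
noncomputable def κI {J : Type} (L S : ℕ → ℝ) (g : J → ℕ) : Ix J → ℝ
  | Sum.inl n => L n ^ 10
  | Sum.inr j => S (g j)

/-- further weights -/
noncomputable def rI {J : Type} (L : ℕ → ℝ) (g : J → ℕ) (a : Ix J) : ℝ := L (gr g a)

/-- Interaction kernels. -/
structure Kern {J : Type} (g : J → ℕ) (L C : ℕ → ℝ) (B : ℕ → ℕ → ℝ) (M : ℕ → ℝ)
    (c : Ix J → Ix J → Ix J → ℝ) : Prop where
  fin : ∀ m, {j | g j = m}.Finite
  card : ∀ m, ({j | g j = m}.ncard : ℝ) ≤ M m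
  anti : ∀ j a b, c j a b = -c b a j
  near : ∀ j a b, c j a b ≠ 0 → gr g j ≤ max (gr g a) (gr g b) + 1 ∧
    gr g a ≤ max (gr g j) (gr g b) + 1 ∧ gr g b ≤ max (gr g j) (gr g a) + 1
  size : ∀ j a b, |c j a b| ≤ M (gr g j)
  quad : ∀ (j : Ix J) (z : Ix J → ℝ), Summable (fun a => z a ^ 2) →
    |qd c z j| ≤ M (gr g j) * ∑' a, z a ^ 2
  low : ∀ n w, |c (Sum.inl n) (Sum.inl n) (Sum.inr w)| ≤ M (g w)
  sep : ∀ n a b, c (Sum.inl n) a b ≠ 0 → (∀ w, a = Sum.inr w → g w + 3 ≤ n) →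
    (∀ w, b = Sum.inr w → g w + 3 ≤ n) → ((∃ w, a = Sum.inr w) ∨ ∃ w, b = Sum.inr w) →
    a = Sum.inl n
  tab : ∀ i j n, c (Sum.inl n) (Sum.inl i) (Sum.inl j) =
    (if i = n ∧ j < n then L j * B j n else 0)
    + (if i = j ∧ n < i then -(L n * B n i) else 0)
    + (if i = j ∧ n = i + 1 then L i * C i else 0)
    + (if i = n ∧ j = n + 1 then -(L n * C n) else 0)

/-- Vector field of the main modes. -/
noncomputable def vf3 (L C ℓ : ℕ → ℝ) (B : ℕ → ℕ → ℝ) (x : ℕ → ℝ) (n : ℕ) : ℝ :=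
  -(ℓ n * x n)
  + (if n = 0 then 0 else L (n - 1) * C (n - 1) * x (n - 1) ^ 2)
  - L n * C n * x n * x (n + 1)
  + x n * ∑ i ∈ Finset.range n, L i * B i n * x i
  - L n * ∑' m : ℕ, B n (n + 1 + m) * x (n + 1 + m) ^ 2

/-- Conditions on the parameters (`lm 0` is free, `lm (n+1) = L (n+1) / L n`). -/
structure Seq (lm L C ℓ M : ℕ → ℝ) (B : ℕ → ℕ → ℝ) : Prop where
  L0 : 1 ≤ L 0
  lm_succ : ∀ n, lm (n + 1) * L n = L (n + 1)
  lm_big : ∀ n, 10 ^ 30 ≤ lm n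
  lm_grow : ∀ n : ℕ, 100 * ((n : ℝ) + 1) * lm n ≤ lm (n + 1)
  M_one : ∀ n, 1 ≤ M n
  M_mono : ∀ n, M n ≤ M (n + 1)
  M_le : ∀ n, M (n + 1) ≤ L n ^ 4
  exp_big : ∀ n, (L (n + 5) * M (n + 5)) ^ 10 ≤ Real.exp (lm n / 10 ^ 6)
  C_lo : ∀ n, Real.exp (-(201 / 10000 * lm n)) ≤ C n
  C_hi : ∀ n, C n ≤ Real.exp (-(199 / 10000 * lm n))
  B_lo : ∀ i n, i < n → 999 / 1000 ≤ B i n
  B_hi : ∀ i n, i < n → B i n ≤ 1001 / 1000
  ℓ_nonneg : ∀ n, 0 ≤ ℓ n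
  ℓ_zero : 10 ^ 6 * (ℓ 0 * lm 0) ≤ L 0
  ℓ_succ : ∀ n, 10 ^ 6 * ℓ (n + 1) ≤ L n * (9 / 1000) ^ n
  ℓ_slave : ∀ n, 10 * L n ≤ ℓ (n + 2)

/-! ### Fourier coefficients -/

abbrev Z3 := Fin 3 → ℤ

/-- the vector of `ℝ^3` -/
noncomputable def vec (k : Z3) : E3 := WithLp.toLp 2 (fun i => (k i : ℝ))

/-- families of coefficients of the series `∑ sin (2 π k · y) V k` -/
abbrev Fam := Z3 → E3

/-- odd, tangential families -/
structure OT (V : Fam) : Prop where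
  odd : ∀ k, V (-k) = -V k
  tan : ∀ k, inner ℝ (vec k) (V k) = 0

/-- rapidly decreasing families -/
def Rap (V : Fam) : Prop := ∀ m : ℕ, ∃ M, ∀ k, ‖vec k‖ ^ m * ‖V k‖ ≤ M

noncomputable def pair (V W : Fam) : ℝ := ∑' k : Z3, inner ℝ (V k) (W k)

/-- the trilinear form on coefficients -/
noncomputable def bil (V W Z : Fam) : ℝ :=
  -(2 * Real.pi) * ∑' q : Z3 × Z3, inner ℝ (V q.1) (vec q.2) * inner ℝ (W (q.2 - q.1)) (Z q.2)

/-- The orthonormal system `e`, in groups. `F n` bounds the frequencies of the group `n`. -/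
structure Conc {J : Type} (ν : ℝ) (g : J → ℕ) (F L ℓ M N : ℕ → ℝ) (e : Ix J → Fam) : Prop where
  ot : ∀ a, OT (e a)
  fsupp : ∀ a k, e a k ≠ 0 → 1 ≤ ‖vec k‖ ∧ ‖vec k‖ ≤ F (gr g a)
  F_le : ∀ n, F n ≤ M n
  lowf : ∃ D, 0 < D ∧ ∀ a k, e a k ≠ 0 → L (gr g a) ≤ D * ‖vec k‖ ^ 3
  disj : ∀ a b k, e a k ≠ 0 → e b k ≠ 0 → gr g a = gr g b
  orth : ∀ a b, (a = b → pair (e a) (e b) = 1) ∧ (a ≠ b → pair (e a) (e b) = 0)
  compl : ∀ V, OT V → (∀ a, pair V (e a) = 0) → ∀ k, V k = 0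
  coer : ∀ n, 2 * (ν * ((2 * Real.pi) ^ 2 * ∑' k, ‖vec k‖ ^ 2 * ‖e (Sum.inl n) k‖ ^ 2)) ≤ ℓ n
  l1 : ∀ a, ∑' k, ‖e a k‖ ≤ M (gr g a)
  N0 : 1 ≤ N 0
  N_grow : ∀ n, 10 ^ 6 * (1000 / 8) ^ (n + 1) * N n ≤ N (n + 1)
  N_le : ∀ n, N n ≤ M n
  l1N : ∀ n, ∑' k, ‖e (Sum.inl n) k‖ ≤ N n
  pt : ∀ n, ∃ y : E3, N n / 1000 ≤
    ‖∑' k : Z3, Real.sin (2 * Real.pi * inner ℝ (vec k) y) • e (Sum.inl n) k‖

/-- Packets (trigonometric polynomials) `P n`: a main part with frequencies in `[K n, 13/10 K n]`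
and a small part at the frequencies `± h n` next to the main part of `P (n+1)`. -/
structure Tab (K : ℕ → ℕ) (γ : ℕ → ℝ) (β D : ℝ) (p : ℕ) (h : ℕ → Z3) (P : ℕ → Fam)
    (C : ℕ → ℝ) (B : ℕ → ℕ → ℝ) : Prop where
  ot : ∀ n, OT (P n)
  supp : ∀ n k, P n k ≠ 0 → ((K n : ℝ) ≤ ‖vec k‖ ∧ ‖vec k‖ ≤ 13 / 10 * K n) ∨ k = h n ∨ k = -h n
  hnorm : ∀ n, (K (n + 1) : ℝ) ≤ ‖vec (h n)‖ ∧ ‖vec (h n)‖ ≤ 12 / 10 * K (n + 1)
  hdist : ∀ n k, P (n + 1) k ≠ 0 → ‖vec k‖ ≤ 13 / 10 * K (n + 1) →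
    (K n : ℝ) / 3 ≤ ‖vec (k - h n)‖ ∧ (K n : ℝ) / 3 ≤ ‖vec (k + h n)‖
  norm1 : ∀ n, pair (P n) (P n) = 1
  h1 : ∀ n, ∑' k, ‖vec k‖ ^ 2 * ‖P n k‖ ^ 2 ≤ 2 * (K n : ℝ) ^ 2
  l1 : ∀ n, ∑' k, ‖P n k‖ ≤ D * (K n * √(K n))
  pt : ∀ n, ∃ y : E3, D * (K n * √(K n)) / 1000 ≤
    ‖∑' k : Z3, Real.sin (2 * Real.pi * inner ℝ (vec k) y) • P n k‖
  B_lo : ∀ i n, i < n → 999 / 1000 ≤ B i n
  B_hi : ∀ i n, i < n → B i n ≤ 1001 / 1000
  C_lo : ∀ n, γ n ≤ C n * K (n + 1) ^ p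
  C_hi : ∀ n, C n ≤ γ n * K (n + 1) ^ p
  tab : ∀ i j n, bil (P i) (P j) (P n) =
    (if i = n ∧ j < n then β * (K j ^ 2 * √(K j)) * B j n else 0)
    + (if i = j ∧ n < i then -(β * (K n ^ 2 * √(K n)) * B n i) else 0)
    + (if i = j ∧ n = i + 1 then β * (K i ^ 2 * √(K i)) * C i else 0)
    + (if i = n ∧ j = n + 1 then -(β * (K n ^ 2 * √(K n)) * C n) else 0)

/-! ### Fields -/

/-- the field with the coefficients `V` -/
noncomputable def fieldOf (V : Fam) (y : E3) : E3 :=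
  ∑' k : Z3, Real.sin (2 * Real.pi * inner ℝ (vec k) y) • V k

/-- Smooth, odd, `ℤ^3`-periodic, divergence-free fields:
sums of sine series with odd, tangential, rapidly decreasing coefficients. -/
def PF (v : E3 → E3) : Prop := ∃ V : Fam, OT V ∧ Rap V ∧ v = fieldOf V

/-- the unit cube -/
def cube : Set E3 := {y | ∀ i, 0 ≤ y i ∧ y i < 1}

/-- `∫ v · w` over the unit cube -/
noncomputable def ip (v w : E3 → E3) : ℝ := ∫ y in cube, inner ℝ (v y) (w y)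

/-- `∫ ((v · ∇) v) · w` over the unit cube -/
noncomputable def cnv (v w : E3 → E3) : ℝ := ∫ y in cube, inner ℝ (fderiv ℝ v y (v y)) (w y)

/-- `∫ |∇v|²` over the unit cube -/
noncomputable def dir (v : E3 → E3) : ℝ :=
  ∫ y in cube, ∑ i : Fin 3, ‖fderiv ℝ v y (EuclideanSpace.single i 1)‖ ^ 2

/-- The linear dissipation `L = ∑ lam i ⟨·, e i⟩ e i` : a complete orthonormal system of smooth
eigenfields `e i` with eigenvalues `lam i ≥ 0` such that `L ≥ - ν Δ` (as quadratic forms). -/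
structure Diss {ι : Type} (ν : ℝ) (e : ι → E3 → E3) (lam : ι → ℝ) : Prop where
  field : ∀ i, PF (e i)
  nonneg : ∀ i, 0 ≤ lam i
  orth : ∀ i j, (i = j → ip (e i) (e j) = 1) ∧ (i ≠ j → ip (e i) (e j) = 0)
  compl : ∀ v, PF v → (∀ i, ip v (e i) = 0) → ∀ y, v y = 0
  coer : ∀ v, PF v → ∀ M, (∀ s : Finset ι, ∑ i ∈ s, lam i * ip v (e i) ^ 2 ≤ M) →
    ν * dir v ≤ M

/-- Smooth solutions on `[0, T)` of `∂ₜ u + (u · ∇) u + ∇p = - L u`, `div u = 0`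
(tested with the complete system `e`; the Fourier coefficients decrease rapidly, locally uniformly
in time, i.e. all derivatives in space are bounded on `[0, T']` for `T' < T`). -/
structure Sol2 {ι : Type} (e : ι → E3 → E3) (lam : ι → ℝ) (T : ℝ) (u : ℝ → E3 → E3) : Prop where
  reg : ∃ V : ℝ → Fam, (∀ t ∈ Ico 0 T, OT (V t) ∧ u t = fieldOf (V t)) ∧
    ∀ m : ℕ, ∀ T' < T, ∃ M, ∀ t ∈ Icc 0 T', ∀ k, ‖vec k‖ ^ m * ‖V t k‖ ≤ M
  eqn : ∀ i, ∀ t ∈ Ico 0 T, HasDerivWithinAt (fun τ => ip (u τ) (e i))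
    (-(lam i * ip (u t) (e i)) - cnv (u t) (e i)) (Ico 0 T) t

end Pool.Agent.Y5.D
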