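import Pool.Agent.Y5.D.Defs

/-! Statements of the steps (Navier-Stokes with additional linear dissipation). -/

open Set Filter Topology MeasureTheory

set_option autoImplicit false

namespace Pool.Agent.Y5.D

/-- Well-posedness of abstract quadratic systems with damping. -/
def S_ABS : Prop := ∀ (I : Type) (d κ r : I → ℝ) (c : I → I → I → ℝ), (∀ i, 0 ≤ d i) →
  (∀ i, 1 ≤ κ i) → (∀ i, 1 ≤ r i) →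
  (∀ k : ℕ, ∃ Ck, ∀ i,
    Summable (fun p : I × I => |c i p.1 p.2| * (r i ^ k * κ i) /
      (κ p.1 * κ p.2 * (r p.1 ^ k + r p.2 ^ k))) ∧
    ∑' p : I × I, |c i p.1 p.2| * (r i ^ k * κ i) / (κ p.1 * κ p.2 * (r p.1 ^ k + r p.2 ^ k))
      ≤ Ck * (1 + √(d i))) →
  -- uniqueness
  (∀ (T : ℝ) (z z' : I → ℝ → ℝ), ASol d κ c T z → ASol d κ c T z' → (∀ i, z i 0 = z' i 0) →
    ∀ i, ∀ t ∈ Ico 0 T, z i t = z' i t) ∧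
  -- existence
  (∀ z₀ : I → ℝ, (∀ k : ℕ, ∃ M, ∀ i, r i ^ k * κ i * |z₀ i| ≤ M) →
    ∃ z : I → ℝ → ℝ, (∀ i, z i 0 = z₀ i) ∧
      ((∀ T, ASol d κ c T z) ∨
        ∃ T, 0 < T ∧ ASol d κ c T z ∧
          (∀ k : ℕ, ∀ T' < T, ∃ M, ∀ t ∈ Icc 0 T', ∀ i, r i ^ k * κ i * |z i t| ≤ M) ∧
          ¬ ∃ M, ∀ t ∈ Ico 0 T, ∀ i, κ i * |z i t| ≤ M))

/-- The kernels satisfy the hypothesis of `S_ABS` if the damping of the other modes is strong. -/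
def S_HK : Prop := ∀ (J : Type) (g : J → ℕ) (lm L C ℓ M : ℕ → ℝ) (B : ℕ → ℕ → ℝ)
  (c : Ix J → Ix J → Ix J → ℝ), Kern g L C B M c → Seq lm L C ℓ M B →
  ∃ S₀ : ℕ → ℝ, ∀ S : ℕ → ℝ, (∀ n, S₀ n ≤ S n) → (∀ n, 1 ≤ S n) →
    ∀ k : ℕ, ∃ Ck, ∀ i,
    Summable (fun p : Ix J × Ix J => |c i p.1 p.2| * (rI L g i ^ k * κI L S g i) /
      (κI L S g p.1 * κI L S g p.2 * (rI L g p.1 ^ k + rI L g p.2 ^ k))) ∧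
    ∑' p : Ix J × Ix J, |c i p.1 p.2| * (rI L g i ^ k * κI L S g i) /
      (κI L S g p.1 * κI L S g p.2 * (rI L g p.1 ^ k + rI L g p.2 ^ k))
      ≤ Ck * (1 + √(dI ℓ S g i))

/-- initial datum: the main mode `0` -/
def Init {J : Type} (z : Ix J → ℝ → ℝ) : Prop :=
  z (Sum.inl 0) 0 = 1 ∧ (∀ n, z (Sum.inl (n + 1)) 0 = 0) ∧ ∀ w, z (Sum.inr w) 0 = 0

/-- Energy identity, bounds of the other modes, and the system of the main modes with a small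
perturbation `f`. -/
def S_PERT : Prop := ∀ (J : Type) (g : J → ℕ) (lm L C ℓ M : ℕ → ℝ) (B : ℕ → ℕ → ℝ)
  (c : Ix J → Ix J → Ix J → ℝ) (φ : ℕ → ℝ), Kern g L C B M c → Seq lm L C ℓ M B →
  (∀ n, 0 < φ n) →
  ∃ S₀ : ℕ → ℝ, ∀ S : ℕ → ℝ, (∀ n, S₀ n ≤ S n) → (∀ n, 1 ≤ S n) →
    ∀ (T : ℝ) (z : Ix J → ℝ → ℝ), ASol (dI ℓ S g) (κI L S g) c T z → Init z →
    (∀ t ∈ Ico 0 T, Summable (fun a => z a t ^ 2) ∧ ∑' a, z a t ^ 2 ≤ 1) ∧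
    (∀ t ∈ Ico 0 T, Summable (fun a => dI ℓ S g a * z a t ^ 2) ∧
      HasDerivWithinAt (fun τ => ∑' a, z a τ ^ 2)
      (-(2 * ∑' a, dI ℓ S g a * z a t ^ 2)) (Ico 0 T) t) ∧
    (∀ w, ∀ t ∈ Ico 0 T, |z (Sum.inr w) t| ≤ M (g w) ^ 2 / S (g w) ^ 4) ∧
    ∃ f : ℕ → ℝ → ℝ, (∀ n, ∀ t ∈ Ico 0 T, HasDerivWithinAt (z (Sum.inl n))
        (vf3 L C ℓ B (fun m => z (Sum.inl m) t) n + f n t) (Ico 0 T) t) ∧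
      ∀ n, ∀ t ∈ Ico 0 T, |f n t| ≤ φ 0 * |z (Sum.inl n) t| + φ n

/-- Blow-up for the perturbed system of the main modes. -/
def S_ODE3 : Prop := ∀ (lm L C ℓ M : ℕ → ℝ) (B : ℕ → ℕ → ℝ), Seq lm L C ℓ M B →
  ∃ φ : ℕ → ℝ, (∀ n, 0 < φ n) ∧ ∃ T₁ : ℝ, 0 < T₁ ∧
    ∀ (T : ℝ) (x f : ℕ → ℝ → ℝ), 0 < T →
    (∀ n, ∀ t ∈ Ico 0 T, HasDerivWithinAt (x n)
      (vf3 L C ℓ B (fun m => x m t) n + f n t) (Ico 0 T) t) →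
    (∀ T' < T, ∃ Mx, ∀ t ∈ Icc 0 T', ∀ n, L n ^ 10 * |x n t| ≤ Mx) →
    (∀ t ∈ Ico 0 T, ∑' n, x n t ^ 2 ≤ 1) →
    (∀ n, ∀ t ∈ Ico 0 T, |f n t| ≤ φ 0 * |x n t| + φ n) →
    x 0 0 = 1 → (∀ n, x (n + 1) 0 = 0) →
    T ≤ T₁ ∧
    ((∀ n, ∃ t ∈ Ico 0 T, (8 / 1000) ^ n ≤ x n t ∧
        ∀ m, n < m → |x m t| ≤ Real.exp (-(lm (m - 1) / 200))) ∨
      ∃ n₀, ∀ t ∈ Ico 0 T, ∀ m, n₀ ≤ m → |x m t| ≤ Real.exp (-(lm (m - 1) / 200)))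

/-- Blow-up for the full system of the modes. -/
def S_BLOW : Prop := ∀ (J : Type) (g : J → ℕ) (lm L C ℓ M : ℕ → ℝ) (B : ℕ → ℕ → ℝ)
  (c : Ix J → Ix J → Ix J → ℝ) (S₁ : ℕ → ℝ), Kern g L C B M c → Seq lm L C ℓ M B →
  ∃ S : ℕ → ℝ, (∀ n, S₁ n ≤ S n) ∧ (∀ n, 1 ≤ S n) ∧ ∃ (T : ℝ) (z : Ix J → ℝ → ℝ), 0 < T ∧
    ASol (dI ℓ S g) (κI L S g) c T z ∧ Init z ∧
    (∀ k : ℕ, ∀ T' < T, ∃ Mk, ∀ t ∈ Icc 0 T', ∀ a, rI L g a ^ k * κI L S g a * |z a t| ≤ Mk) ∧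
    (∀ (T' : ℝ) (z' : Ix J → ℝ → ℝ), 0 < T' → ASol (dI ℓ S g) (κI L S g) c T' z' → Init z' →
      T' ≤ T ∧ ∀ a, ∀ t ∈ Ico 0 T', z' a t = z a t) ∧
    (∀ t ∈ Ico 0 T, Summable (fun a => z a t ^ 2) ∧ ∑' a, z a t ^ 2 ≤ 1) ∧
    (∀ t ∈ Ico 0 T, Summable (fun a => dI ℓ S g a * z a t ^ 2) ∧
      HasDerivWithinAt (fun τ => ∑' a, z a τ ^ 2)
      (-(2 * ∑' a, dI ℓ S g a * z a t ^ 2)) (Ico 0 T) t) ∧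
    (∀ w, ∀ t ∈ Ico 0 T, |z (Sum.inr w) t| ≤ M (g w) ^ 2 / S (g w) ^ 4) ∧
    ∀ n, ∃ t ∈ Ico 0 T, (8 / 1000) ^ n ≤ z (Sum.inl n) t ∧
      ∀ m, n < m → |z (Sum.inl m) t| ≤ Real.exp (-(lm (m - 1) / 200))

/-- Existence of packets of trigonometric polynomials with the interaction table. -/
def S_TAB : Prop := ∃ (β D : ℝ) (p K₁ : ℕ), 0 < β ∧ 0 < D ∧ 0 < K₁ ∧
  ∀ (K : ℕ → ℕ) (γ : ℕ → ℝ), K₁ ≤ K 0 → (∀ n, K₁ * K n ≤ K (n + 1)) → (∀ n, 20 ∣ K n) →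
    (∀ n, 0 < γ n ∧ γ n * K (n + 1) ^ p ≤ 1) →
    ∃ (h : ℕ → Z3) (P : ℕ → Fam) (C : ℕ → ℝ) (B : ℕ → ℕ → ℝ), Tab K γ β D p h P C B

/-- Choice of the scales. -/
def S_SEQ : Prop := ∀ (ν β D : ℝ) (p K₁ : ℕ), 0 < ν → 0 < β → 0 < D → 0 < K₁ →
  ∃ (K : ℕ → ℕ) (γ lm ℓ : ℕ → ℝ), K₁ ≤ K 0 ∧ 10 ^ 6 ≤ K 0 ∧ (∀ n, K₁ * K n ≤ K (n + 1)) ∧
    (∀ n, 1000 * K n ≤ K (n + 1)) ∧ (∀ n, 20 ∣ K n) ∧ (∀ n, 0 < γ n ∧ γ n * K (n + 1) ^ p ≤ 1) ∧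
    (∀ n, 2 * (ν * ((2 * Real.pi) ^ 2 * (2 * (K n : ℝ) ^ 2))) ≤ ℓ n) ∧
    1 ≤ D * (K 0 * √(K 0)) ∧
    (∀ n, 10 ^ 6 * (1000 / 8) ^ (n + 1) * (D * (K n * √(K n))) ≤ D * (K (n + 1) * √(K (n + 1)))) ∧
    (∀ n, D * (K n * √(K n)) ≤ 10 ^ 4 * (K (n + 1) : ℝ) ^ 3) ∧
    (∀ n, β * ((K n : ℝ) ^ 2 * √(K n)) ≤ (K n : ℝ) ^ 3 / 1000) ∧
    ∀ (C : ℕ → ℝ) (B : ℕ → ℕ → ℝ), (∀ n, γ n ≤ C n * K (n + 1) ^ p) →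
      (∀ n, C n ≤ γ n * K (n + 1) ^ p) → (∀ i n, i < n → 999 / 1000 ≤ B i n) →
      (∀ i n, i < n → B i n ≤ 1001 / 1000) →
      Seq lm (fun n => β * (K n ^ 2 * √(K n))) C ℓ (fun n => 10 ^ 4 * (K (n + 1) : ℝ) ^ 3) B

/-- The concrete kernel: packets of trigonometric polynomials, completed to an orthonormal
system. -/
def S_CONC : Prop := ∀ ν : ℝ, 0 < ν → ∃ (J : Type) (g : J → ℕ) (F lm L C ℓ M N : ℕ → ℝ)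
  (B : ℕ → ℕ → ℝ) (e : Ix J → Fam), Conc ν g F L ℓ M N e ∧ Seq lm L C ℓ M B ∧
    Kern g L C B M (fun j a b => bil (e a) (e b) (e j))

/-- Completion of the packets to an orthonormal system, and bounds for the kernel. -/
def S_ONB : Prop := S_TAB → S_SEQ → S_CONC

/-- Quantities of fields in terms of the coefficients. -/
def S_FLD : Prop :=
  (∀ V W, OT V → Rap V → OT W → Rap W → ip (fieldOf V) (fieldOf W) = pair V W) ∧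
  (∀ V W, OT V → Rap V → OT W → Rap W → cnv (fieldOf V) (fieldOf W) = -bil V V W) ∧
  ∀ V, OT V → Rap V → dir (fieldOf V) = (2 * Real.pi) ^ 2 * ∑' k, ‖vec k‖ ^ 2 * ‖V k‖ ^ 2

/-- The main theorem: the Navier-Stokes equations with additional linear dissipation
can blow up. -/
def S_MAIN2 : Prop := ∀ ν : ℝ, 0 < ν → ∃ (ι : Type) (e : ι → E3 → E3) (lam : ι → ℝ) (i₀ : ι)
  (T : ℝ) (u : ℝ → E3 → E3), Diss ν e lam ∧ 0 < T ∧ Sol2 e lam T u ∧ u 0 = e i₀ ∧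
    -- uniqueness, and `T` is the maximal time of existence
    (∀ (T' : ℝ) (v : ℝ → E3 → E3), 0 < T' → Sol2 e lam T' v → v 0 = e i₀ →
      T' ≤ T ∧ ∀ t ∈ Ico 0 T', v t = u t) ∧
    -- energy inequality
    (∀ t ∈ Ico 0 T, ∃ D, HasDerivWithinAt (fun τ => ip (u τ) (u τ)) D (Ico 0 T) t ∧
      D ≤ -(2 * (ν * dir (u t)))) ∧
    -- blow-up of the velocity
    ∀ M : ℝ, ∃ t ∈ Ico 0 T, ∃ y, M < ‖u t y‖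

/-- The passage to fields. -/
def S_PHYS : Prop := S_FLD → S_BLOW → S_CONC → S_MAIN2

end Pool.Agent.Y5.D
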