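import Pool.Agent.Y751.ND.ABS
import Pool.Agent.Y494.ND.HK
import Pool.Agent.Y494.ND.Pert
import Pool.Agent.Y691.ND.SEQ
import Pool.Agent.Y691.ND.FLD
import Pool.Agent.Y248.ND.ONB
import Pool.Agent.Y275.ND.PHYS
import Pool.Agent.Y562.ND.BLOWA
import Pool.Agent.Y155.ND.TAB
import Pool.Agent.Y5.D.P7

set_option autoImplicit false

namespace Pool.Agent.Y5.D

theorem t_BLOW : S_BLOW :=
  Pool.Agent.Y562.ND.t_BLOWA Pool.Agent.Y751.ND.t_ABS Pool.Agent.Y494.ND.HK.t_HK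
    Pool.Agent.Y494.ND.t_PERT t_ODE3

theorem t_CONC : S_CONC :=
  Pool.Agent.Y248.ND.t_ONB Pool.Agent.Y155.ND.t_TAB Pool.Agent.Y691.ND.t_SEQ

theorem t_MAIN2 : S_MAIN2 :=
  Pool.Agent.Y275.ND.t_PHYS Pool.Agent.Y691.ND.t_FLD t_BLOW t_CONC

end Pool.Agent.Y5.D
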