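import Pool.Agent.Y5.D.Stm
import Pool.Agent.Y5.O7
import Pool.Agent.Y274.TAIL

/-! Basic facts on the perturbed system of the main modes. -/

open Set Filter Topology MeasureTheory

set_option autoImplicit false

namespace Pool.Agent.Y5.D

/-- total strain of the lower modes -/
noncomputable def U (L : ℕ → ℝ) (x : ℕ → ℝ → ℝ) (m : ℕ) (t : ℝ) : ℝ :=
  ∑ i ∈ Finset.range m, L i * |x i t|

/-- source -/
noncomputable def src (L C : ℕ → ℝ) (x : ℕ → ℝ → ℝ) (m : ℕ) (t : ℝ) : ℝ :=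
  if m = 0 then 0 else L (m - 1) * C (m - 1) * x (m - 1) t ^ 2

/-- size of the perturbation -/
noncomputable def ph (lm : ℕ → ℝ) (n : ℕ) : ℝ := Real.exp (-(lm n))

/-- Assumptions. -/
structure Gd (lm L C ℓ M : ℕ → ℝ) (B : ℕ → ℕ → ℝ) (T : ℝ) (x f : ℕ → ℝ → ℝ) : Prop where
  sq : Seq lm L C ℓ M B
  hT : 0 < T
  der : ∀ n, ∀ t ∈ Ico 0 T, HasDerivWithinAt (x n)
      (vf3 L C ℓ B (fun m => x m t) n + f n t) (Ico 0 T) t
  bdd : ∀ T' < T, ∃ Mx, ∀ t ∈ Icc 0 T', ∀ n, L n ^ 10 * |x n t| ≤ Mx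
  en : ∀ t ∈ Ico 0 T, ∑' n, x n t ^ 2 ≤ 1
  hf : ∀ n, ∀ t ∈ Ico 0 T, |f n t| ≤ ph lm 0 * |x n t| + ph lm n
  h0 : x 0 0 = 1
  hn : ∀ n, x (n + 1) 0 = 0

lemma ph_pos (lm : ℕ → ℝ) (n : ℕ) : 0 < ph lm n := Real.exp_pos _

section seq

variable {lm L C ℓ M : ℕ → ℝ} {B : ℕ → ℕ → ℝ}

lemma sL1 (q : Seq lm L C ℓ M B) (n : ℕ) : 1 ≤ L n := by
  induction n with
  | zero => exact q.L0
  | succ n ih =>
    rw [← q.lm_succ n]
    have := q.lm_big (n + 1)
    nlinarith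

lemma sLp (q : Seq lm L C ℓ M B) (n : ℕ) : 0 < L n := lt_of_lt_of_le one_pos (sL1 q n)

lemma slm (q : Seq lm L C ℓ M B) (n : ℕ) : 0 < lm n :=
  lt_of_lt_of_le (by norm_num) (q.lm_big n)

lemma sLs (q : Seq lm L C ℓ M B) (n : ℕ) : 10 ^ 30 * L n ≤ L (n + 1) := by
  rw [← q.lm_succ n]
  have := q.lm_big (n + 1)
  have := sLp q n
  gcongr

lemma sLmono (q : Seq lm L C ℓ M B) : Monotone L := by
  refine monotone_nat_of_le_succ fun n => ?_
  have := sLs q n
  have := sLp q n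
  linarith

lemma sLpow (q : Seq lm L C ℓ M B) (n : ℕ) : (10 ^ 30) ^ n ≤ L n := by
  induction n with
  | zero => simpa using q.L0
  | succ n ih =>
    have := sLs q n
    rw [pow_succ]
    linarith

lemma sLinv (q : Seq lm L C ℓ M B) (n : ℕ) : (L n)⁻¹ ≤ (1 / 2) ^ n := by
  have h := sLpow q n
  have h2 : (2 : ℝ) ^ n ≤ (10 ^ 30) ^ n := by gcongr; norm_num
  rw [one_div, inv_pow]
  exact inv_anti₀ (by positivity) (h2.trans h)

lemma snL (q : Seq lm L C ℓ M B) (n : ℕ) : (n : ℝ) ≤ L n := by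
  have h := sLpow q n
  have h2 : (n : ℝ) ≤ 2 ^ n := by exact_mod_cast n.lt_two_pow_self.le
  have h3 : (2 : ℝ) ^ n ≤ (10 ^ 30) ^ n := by gcongr; norm_num
  linarith

lemma slmmono (q : Seq lm L C ℓ M B) : Monotone lm := by
  refine monotone_nat_of_le_succ fun n => ?_
  have h := q.lm_grow n
  have h1 := slm q n
  have h2 : (0 : ℝ) ≤ n := n.cast_nonneg
  nlinarith

lemma slm100 (q : Seq lm L C ℓ M B) (n : ℕ) : 100 * lm n ≤ lm (n + 1) := by
  have h := q.lm_grow n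
  have h1 := slm q n
  have h2 : (0 : ℝ) ≤ n := n.cast_nonneg
  nlinarith

lemma slmsum (q : Seq lm L C ℓ M B) (n : ℕ) : ∑ i ∈ Finset.range n, lm i ≤ lm n / 100 := by
  induction n with
  | zero => simp; have := slm q 0; positivity
  | succ n ih =>
    rw [Finset.sum_range_succ]
    rcases n with _ | n
    · simp
      have := slm100 q 0
      simp at this
      linarith
    · have h := q.lm_grow (n + 1)
      have h1 := slm q (n + 1)
      have h2 : (0 : ℝ) ≤ n := n.cast_nonneg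
      push_cast at h
      have h3 : 200 * lm (n + 1) ≤ lm (n + 1 + 1) := by nlinarith
      linarith

lemma sCp (q : Seq lm L C ℓ M B) (n : ℕ) : 0 < C n := (Real.exp_pos _).trans_le (q.C_lo n)

lemma sC1 (q : Seq lm L C ℓ M B) (n : ℕ) : C n ≤ 1 := by
  refine (q.C_hi n).trans (Real.exp_le_one_iff.2 ?_)
  have := slm q n
  linarith

lemma sℓ (q : Seq lm L C ℓ M B) (n : ℕ) : ℓ n ≤ L n := by
  rcases n with _ | n
  · have h := q.ℓ_zero
    have h1 := q.ℓ_nonneg 0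
    have h2 := q.lm_big 0
    have h3 : ℓ 0 * 1 ≤ ℓ 0 * lm 0 := by
      gcongr; linarith
    nlinarith [mul_nonneg h1 (slm q 0).le]
  · have h := q.ℓ_succ n
    have h1 := sLp q n
    have h2 := sLs q n
    have h3 : ((9 : ℝ) / 1000) ^ n ≤ 1 := pow_le_one₀ (by norm_num) (by norm_num)
    have h4 : L n * (9 / 1000) ^ n ≤ L n * 1 := by gcongr
    have h5 := q.ℓ_nonneg (n + 1)
    nlinarith

lemma phsum (q : Seq lm L C ℓ M B) (m : ℕ) : Summable (fun j => ph lm (m + j)) ∧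
    ∑' j, ph lm (m + j) ≤ 2 * ph lm m := by
  have h : ∀ j, ph lm (m + j) ≤ ph lm m * (1 / 2) ^ j := by
    intro j
    induction j with
    | zero => simp
    | succ j ih =>
      have h1 := slm100 q (m + j)
      have h2 := q.lm_big (m + j)
      have h3 : ph lm (m + (j + 1)) ≤ ph lm (m + j) * (1 / 2) := by
        have e : ph lm (m + (j + 1)) = ph lm (m + j) * Real.exp (lm (m + j) - lm (m + (j + 1))) := by
          rw [ph, ph, ← Real.exp_add]; congr 1; ring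
        rw [e]
        have h4 : Real.exp (lm (m + j) - lm (m + (j + 1))) ≤ 1 / 2 := by
          have h5 : Real.exp (lm (m + j) - lm (m + (j + 1))) ≤ Real.exp (-1) := by
            apply Real.exp_le_exp.2
            have e2 : m + (j + 1) = m + j + 1 := by ring
            rw [e2]
            linarith
          have h6 := Real.exp_neg_one_lt_d9
          linarith
        have := ph_pos lm (m + j)
        gcongr
      calc ph lm (m + (j + 1)) ≤ ph lm (m + j) * (1 / 2) := h3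
        _ ≤ (ph lm m * (1 / 2) ^ j) * (1 / 2) := by gcongr
        _ = _ := by ring
  have hs : Summable (fun j : ℕ => ph lm m * (1 / 2 : ℝ) ^ j) :=
    (summable_geometric_of_lt_one (by norm_num) (by norm_num)).mul_left _
  have h1 : Summable (fun j => ph lm (m + j)) :=
    Summable.of_nonneg_of_le (fun j => (ph_pos _ _).le) h hs
  refine ⟨h1, (h1.tsum_le_tsum h hs).trans ?_⟩
  rw [tsum_mul_left, tsum_geometric_of_lt_one (by norm_num) (by norm_num)]
  norm_num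
  linarith

end seq

namespace Gd

variable {lm L C ℓ M : ℕ → ℝ} {B : ℕ → ℕ → ℝ} {T : ℝ} {x f : ℕ → ℝ → ℝ}

lemma cont (g : Gd lm L C ℓ M B T x f) (n : ℕ) : ContinuousOn (x n) (Ico 0 T) :=
  fun t ht => (g.der n t ht).continuousWithinAt

lemma derivAt (g : Gd lm L C ℓ M B T x f) (n : ℕ) {t : ℝ} (ht : t ∈ Ioo 0 T) :
    HasDerivAt (x n) (vf3 L C ℓ B (fun m => x m t) n + f n t) t :=
  (g.der n t ⟨ht.1.le, ht.2⟩).hasDerivAt (Ico_mem_nhds ht.1 ht.2)

/-- pointwise bound -/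
lemma bd (g : Gd lm L C ℓ M B T x f) {T' : ℝ} (hT' : T' < T) :
    ∃ K, 1 ≤ K ∧ ∀ t ∈ Icc 0 T', ∀ n, |x n t| ≤ K * (L n ^ 10)⁻¹ := by
  obtain ⟨Mx, h⟩ := g.bdd T' hT'
  refine ⟨max Mx 1, le_max_right _ _, fun t ht n => ?_⟩
  have hp : 0 < L n ^ 10 := pow_pos (sLp g.sq n) _
  rw [← div_eq_mul_inv, le_div_iff₀ hp, mul_comm]
  exact (h t ht n).trans (le_max_left _ _)

lemma sumsq {K t : ℝ} (q : Seq lm L C ℓ M B) (h : ∀ n, |x n t| ≤ K * (L n ^ 10)⁻¹) (m : ℕ) :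
    Summable fun j : ℕ => x (m + j) t ^ 2 := by
  have h2 : Summable fun j : ℕ => K ^ 2 * (1 / 2 : ℝ) ^ j :=
    (summable_geometric_of_lt_one (by norm_num) (by norm_num)).mul_left _
  refine Summable.of_nonneg_of_le (fun j => sq_nonneg _) (fun j => ?_) h2
  have h3 := h (m + j)
  have hL1 := sL1 q (m + j)
  have hLp := sLp q (m + j)
  have h4 : |x (m + j) t| ^ 2 ≤ (K * (L (m + j) ^ 10)⁻¹) ^ 2 := by gcongr
  rw [sq_abs] at h4
  refine h4.trans ?_
  rw [mul_pow]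
  have h5 : ((L (m + j) ^ 10)⁻¹) ^ 2 ≤ (1 / 2 : ℝ) ^ j := by
    have h6 := sLinv q (m + j)
    have h7 : ((L (m + j) ^ 10)⁻¹) ^ 2 = ((L (m + j))⁻¹) ^ 20 := by
      rw [← inv_pow, ← pow_mul]
    rw [h7]
    have h8 : (L (m + j))⁻¹ ≤ 1 := inv_le_one_of_one_le₀ hL1
    calc ((L (m + j))⁻¹) ^ 20 ≤ ((L (m + j))⁻¹) ^ 1 :=
          pow_le_pow_of_le_one (by positivity) h8 (by norm_num)
      _ ≤ (1 / 2) ^ (m + j) := by rw [pow_one]; exact h6
      _ ≤ (1 / 2) ^ j := pow_le_pow_of_le_one (by norm_num) (by norm_num) (by omega)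
  gcongr

lemma summ (g : Gd lm L C ℓ M B T x f) {t : ℝ} (ht : t ∈ Ico 0 T) (m : ℕ) :
    Summable fun j : ℕ => x (m + j) t ^ 2 := by
  obtain ⟨K, _, hK⟩ := g.bd ht.2
  exact sumsq g.sq (hK t ⟨ht.1, le_rfl⟩) m

lemma Y_nonneg (m : ℕ) (t : ℝ) : 0 ≤ Y x m t := tsum_nonneg fun _ => sq_nonneg _

lemma Y_succ (g : Gd lm L C ℓ M B T x f) {t : ℝ} (ht : t ∈ Ico 0 T) (m : ℕ) :
    Y x m t = x m t ^ 2 + Y x (m + 1) t := by
  rw [Y, (g.summ ht m).tsum_eq_zero_add]
  congr 1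
  rw [Y]
  congr 1; ext j; congr 2; ring

lemma sq_le (g : Gd lm L C ℓ M B T x f) {t : ℝ} (ht : t ∈ Ico 0 T) {m n : ℕ} (h : m ≤ n) :
    x n t ^ 2 ≤ Y x m t := by
  obtain ⟨k, rfl⟩ := Nat.exists_eq_add_of_le h
  exact (g.summ ht m).le_tsum k fun j _ => sq_nonneg _

lemma Y_anti (g : Gd lm L C ℓ M B T x f) {t : ℝ} (ht : t ∈ Ico 0 T) (m : ℕ) :
    Y x (m + 1) t ≤ Y x m t := by
  rw [g.Y_succ ht m]; nlinarith [sq_nonneg (x m t)]

lemma Y_le_one (g : Gd lm L C ℓ M B T x f) {t : ℝ} (ht : t ∈ Ico 0 T) (m : ℕ) :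
    Y x m t ≤ 1 := by
  induction m with
  | zero => simpa [Y] using g.en t ht
  | succ m ih => exact (g.Y_anti ht m).trans ih

lemma abs_le_sqrt (g : Gd lm L C ℓ M B T x f) {t : ℝ} (ht : t ∈ Ico 0 T) {m n : ℕ}
    (h : m ≤ n) : |x n t| ≤ √(Y x m t) := Real.abs_le_sqrt (g.sq_le ht h)

lemma abs_le_one (g : Gd lm L C ℓ M B T x f) {t : ℝ} (ht : t ∈ Ico 0 T) (n : ℕ) :
    |x n t| ≤ 1 := by
  refine (g.abs_le_sqrt ht (le_refl n)).trans ?_
  exact Real.sqrt_le_one.2 (g.Y_le_one ht n)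

/-- weighted tails -/
lemma tsB (g : Gd lm L C ℓ M B T x f) {t : ℝ} (ht : t ∈ Ico 0 T) {i m : ℕ} (him : i < m) :
    Summable (fun j : ℕ => B i (m + j) * x (m + j) t ^ 2) ∧
    0 ≤ ∑' j : ℕ, B i (m + j) * x (m + j) t ^ 2 ∧
    ∑' j : ℕ, B i (m + j) * x (m + j) t ^ 2 ≤ 1001 / 1000 * Y x m t := by
  have hS := g.summ ht m
  have hlo : ∀ j, 999 / 1000 ≤ B i (m + j) := fun j => g.sq.B_lo i (m + j) (by omega)
  have hhi : ∀ j, B i (m + j) ≤ 1001 / 1000 := fun j => g.sq.B_hi i (m + j) (by omega)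
  have h1 : Summable (fun j : ℕ => B i (m + j) * x (m + j) t ^ 2) := by
    refine Summable.of_norm_bounded (hS.mul_left (1001 / 1000)) fun j => ?_
    rw [Real.norm_eq_abs, abs_mul, abs_of_nonneg (sq_nonneg (x (m + j) t)),
      abs_of_nonneg (by linarith [hlo j])]
    have := hhi j
    gcongr
  refine ⟨h1, tsum_nonneg fun j => mul_nonneg (by linarith [hlo j]) (sq_nonneg _), ?_⟩
  rw [Y, ← tsum_mul_left]
  refine h1.tsum_le_tsum (fun j => ?_) (hS.mul_left _)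
  have := hhi j
  gcongr

lemma U_nonneg (q : Seq lm L C ℓ M B) (m : ℕ) (t : ℝ) : 0 ≤ U L x m t :=
  Finset.sum_nonneg fun i _ => mul_nonneg (sLp q i).le (abs_nonneg _)

/-- strain sum -/
lemma strain (q : Seq lm L C ℓ M B) {m k : ℕ} (hmk : m ≤ k) (t : ℝ) :
    |∑ i ∈ Finset.range m, L i * B i k * x i t| ≤ 1001 / 1000 * U L x m t := by
  refine (Finset.abs_sum_le_sum_abs _ _).trans ?_
  rw [U, Finset.mul_sum]
  refine Finset.sum_le_sum fun i hi => ?_
  have hi' : i < k := by have := Finset.mem_range.1 hi; omega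
  have hLp := sLp q i
  rw [abs_mul, abs_mul, abs_of_pos hLp,
    abs_of_nonneg (by linarith [q.B_lo i k hi'] : 0 ≤ B i k)]
  have := q.B_hi i k hi'
  have h2 : L i * B i k * |x i t| ≤ L i * (1001 / 1000) * |x i t| := by
    gcongr
  linarith

lemma src_nonneg (q : Seq lm L C ℓ M B) (m : ℕ) (t : ℝ) : 0 ≤ src L C x m t := by
  unfold src
  split_ifs
  · exact le_rfl
  · have := sLp q (m - 1)
    have := sCp q (m - 1)
    positivity

/-- the flux -/
noncomputable def Fl (L C : ℕ → ℝ) (X : ℕ → ℝ) (n : ℕ) : ℝ :=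
  if n = 0 then 0 else L (n - 1) * C (n - 1) * X (n - 1) ^ 2 * X n

/-- partial sums -/
lemma part (g : Gd lm L C ℓ M B T x f) {t : ℝ} (ht : t ∈ Ico 0 T) (m k : ℕ) :
    ∑ j ∈ Finset.range k, x (m + j) t * vf3 L C ℓ B (fun i => x i t) (m + j) =
      -(∑ j ∈ Finset.range k, ℓ (m + j) * x (m + j) t ^ 2)
      + Fl L C (fun i => x i t) m - Fl L C (fun i => x i t) (m + k)
      + ∑ j ∈ Finset.range k, x (m + j) t ^ 2 * ∑ i ∈ Finset.range m, L i * B i (m + j) * x i t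
      - ∑ i ∈ Finset.range k, L (m + i) * x (m + i) t *
          ∑' l : ℕ, B (m + i) (m + k + l) * x (m + k + l) t ^ 2 := by
  induction k with
  | zero => simp
  | succ k ih =>
    rw [Finset.sum_range_succ, ih, Finset.sum_range_succ, Finset.sum_range_succ (fun j =>
      x (m + j) t ^ 2 * ∑ i ∈ Finset.range m, L i * B i (m + j) * x i t)]
    set N := m + k with hN
    have e1 : m + (k + 1) = N + 1 := by omega
    rw [e1]
    have h2 : ∀ i ∈ Finset.range k, L (m + i) * x (m + i) t *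
          ∑' l : ℕ, B (m + i) (N + l) * x (N + l) t ^ 2
        = L (m + i) * B (m + i) N * x (m + i) t * x N t ^ 2 + L (m + i) * x (m + i) t *
          ∑' l : ℕ, B (m + i) (N + 1 + l) * x (N + 1 + l) t ^ 2 := by
      intro i hi
      have hi' := Finset.mem_range.1 hi
      rw [(g.tsB ht (i := m + i) (m := N) (by omega)).1.tsum_eq_zero_add]
      have e : ∑' l : ℕ, B (m + i) (N + (l + 1)) * x (N + (l + 1)) t ^ 2
          = ∑' l : ℕ, B (m + i) (N + 1 + l) * x (N + 1 + l) t ^ 2 := by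
        refine tsum_congr fun l => ?_
        have : N + (l + 1) = N + 1 + l := by omega
        rw [this]
      rw [e, add_zero]
      ring
    rw [Finset.sum_congr rfl h2, Finset.sum_add_distrib]
    rw [Finset.sum_range_succ (fun i => L (m + i) * x (m + i) t *
          ∑' l : ℕ, B (m + i) (N + 1 + l) * x (N + 1 + l) t ^ 2)]
    have h3 : ∑ i ∈ Finset.range N, L i * B i N * x i t
        = ∑ i ∈ Finset.range m, L i * B i N * x i t
          + ∑ i ∈ Finset.range k, L (m + i) * B (m + i) N * x (m + i) t := by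
      rw [hN, Finset.sum_range_add]
    have h4 : x N t * vf3 L C ℓ B (fun i => x i t) N = -(ℓ N * x N t ^ 2)
        + Fl L C (fun i => x i t) N - Fl L C (fun i => x i t) (N + 1)
        + x N t ^ 2 * ∑ i ∈ Finset.range N, L i * B i N * x i t
        - L N * x N t * ∑' l : ℕ, B N (N + 1 + l) * x (N + 1 + l) t ^ 2 := by
      have hN1 : ¬ (N + 1 = 0) := Nat.succ_ne_zero N
      unfold vf3 Fl
      rw [if_neg hN1]
      have e5 : N + 1 - 1 = N := by omega
      rw [e5]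
      split_ifs <;> ring
    rw [← hN, h4, h3, ← Finset.sum_mul]
    ring

end Gd

end Pool.Agent.Y5.D
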