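import Pool.Agent.Y5.D.P3

/-! Stages: a priori bounds. -/

open Set Filter Topology MeasureTheory

set_option autoImplicit false

namespace Pool.Agent.Y5.D

open Gd (I)

/-- The state at the beginning of the stage `n`. -/
structure Stg (lm L : ℕ → ℝ) (T : ℝ) (x : ℕ → ℝ → ℝ) (n : ℕ) (σ a : ℕ → ℝ) : Prop where
  σ0 : σ 0 = 0
  a0 : a 0 = 1
  σlt : ∀ i < n, σ i < σ (i + 1)
  σT : σ n < T
  dur : ∀ i < n, σ (i + 1) - σ i ≤ 23 / 1000 * lm i / (L i * a i)
  agrow : ∀ i < n, 9 / 1000 * a i ≤ a (i + 1)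
  cross : ∀ i < n, x i (σ (i + 1)) = 100 * a (i + 1)
  aY : ∀ i ≤ n, √(Y x i (σ i)) = a i
  init : 995 / 1000 * a n ≤ x n (σ n)
  J : ∀ i < n, I L x (i + 1) (σ (i + 1)) ≤ 102 / 10000 * lm (i + 1)
  Γ : ∀ i < n, I L x i (σ (i + 1)) ≤ 314 / 10000 * lm i

/-- The current stage on `[σ n, t1)`. -/
structure Cur (lm L : ℕ → ℝ) (T : ℝ) (x : ℕ → ℝ → ℝ) (n : ℕ) (σ a : ℕ → ℝ) (t1 : ℝ) : Prop where
  lt : σ n < t1
  leT : t1 ≤ T
  le : t1 ≤ σ n + 23 / 1000 * lm n / (L n * a n)
  act : ∀ t ∈ Ico (σ n) t1, Y x (n + 1) t < (1 / 100 * x n t) ^ 2 ∧ 9 / 10 * a n < x n t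

section seq

variable {lm L C ℓ M : ℕ → ℝ} {B : ℕ → ℕ → ℝ}

lemma exp_small (q : Seq lm L C ℓ M B) (n : ℕ) {β : ℝ} (hβ : β ≤ -(1 / 1000)) :
    Real.exp (β * lm n) ≤ 1 / 10 ^ 20 := by
  have h := q.lm_big n
  have h1 : Real.exp (β * lm n) ≤ Real.exp (-(10 ^ 27)) := by
    apply Real.exp_le_exp.2
    nlinarith
  refine h1.trans ?_
  rw [Real.exp_neg, ← one_div]
  apply one_div_le_one_div_of_le (by positivity)
  linarith [Real.add_one_le_exp ((10 : ℝ) ^ 27)]

lemma C_small (q : Seq lm L C ℓ M B) (n k : ℕ) (hk : k ≤ 100) :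
    EE lm n ^ k * C n ≤ 1 / 10 ^ 20 := by
  have hk' : (k : ℝ) ≤ 100 := by exact_mod_cast hk
  have h := C_hi' q n
  have hE := EE_pos (lm := lm) n
  calc EE lm n ^ k * C n ≤ EE lm n ^ k * Real.exp (-(199 / 10000) * lm n) := by gcongr
    _ ≤ Real.exp (-(1 / 100) * lm n) := EE_exp q n k (by linarith)
    _ ≤ _ := exp_small q n (by norm_num)

lemma ph_small (q : Seq lm L C ℓ M B) (n k : ℕ) (hk : k ≤ 100) :
    EE lm n ^ k * ph lm n ≤ 1 / 10 ^ 20 := by
  have hk' : (k : ℝ) ≤ 100 := by exact_mod_cast hk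
  rw [ph_eq]
  refine (EE_exp q n k (β := -(1 / 100)) (by linarith)).trans (exp_small q n (by norm_num))

lemma C_small0 (q : Seq lm L C ℓ M B) (n : ℕ) : C n ≤ 1 / 10 ^ 20 := by
  simpa using C_small q n 0 (by norm_num)

lemma ph_small0 (q : Seq lm L C ℓ M B) (n : ℕ) : ph lm n ≤ 1 / 10 ^ 20 := by
  simpa using ph_small q n 0 (by norm_num)

lemma pow_L (q : Seq lm L C ℓ M B) (n : ℕ) : 1 ≤ (9 / 1000) ^ n * L n := by
  have h := sLpow q n
  calc (1 : ℝ) ≤ (9 / 1000 * 10 ^ 30) ^ n := one_le_pow₀ (by norm_num)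
    _ = (9 / 1000) ^ n * (10 ^ 30) ^ n := mul_pow _ _ _
    _ ≤ _ := by gcongr

end seq

namespace Gd

variable {lm L C ℓ M : ℕ → ℝ} {B : ℕ → ℕ → ℝ} {T : ℝ} {x f : ℕ → ℝ → ℝ}
variable {n : ℕ} {σ a : ℕ → ℝ} {t1 : ℝ}

lemma alow (h : Stg lm L T x n σ a) : ∀ i ≤ n, (9 / 1000) ^ i ≤ a i := by
  intro i
  induction i with
  | zero => intro _; rw [h.a0]; simp
  | succ i ih =>
    intro hi
    have h1 := ih (by omega)
    have h2 := h.agrow i (by omega)
    calc (9 / 1000 : ℝ) ^ (i + 1) = 9 / 1000 * (9 / 1000) ^ i := by ring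
      _ ≤ 9 / 1000 * a i := by gcongr
      _ ≤ _ := h2

lemma apos (h : Stg lm L T x n σ a) (i : ℕ) (hi : i ≤ n) : 0 < a i :=
  lt_of_lt_of_le (by positivity) (alow h i hi)

lemma Gpos (g : Gd lm L C ℓ M B T x f) (h : Stg lm L T x n σ a) (i : ℕ) (hi : i ≤ n) :
    0 < L i * a i := mul_pos (sLp g.sq i) (apos h i hi)

lemma G1 (g : Gd lm L C ℓ M B T x f) (h : Stg lm L T x n σ a) (i : ℕ) (hi : i ≤ n) :
    1 ≤ L i * a i := by
  have h1 := pow_L g.sq i
  have h2 := alow h i hi
  have h3 := sLp g.sq i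
  calc (1 : ℝ) ≤ (9 / 1000) ^ i * L i := h1
    _ ≤ a i * L i := by gcongr
    _ = _ := mul_comm _ _

lemma aE (g : Gd lm L C ℓ M B T x f) (h : Stg lm L T x n σ a) (i : ℕ) (hi : i ≤ n) :
    1 ≤ EE lm i * a i := by
  have h1 := g.G1 h i hi
  have h2 := EE_L g.sq (k := i) (n := i) (by omega)
  have h3 := apos h i hi
  calc (1 : ℝ) ≤ L i * a i := h1
    _ ≤ _ := by gcongr

lemma Gstep (g : Gd lm L C ℓ M B T x f) (h : Stg lm L T x n σ a) {i : ℕ} (hi : i < n) :
    lm (i + 1) * (9 / 1000) * (L i * a i) ≤ L (i + 1) * a (i + 1) := by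
  have h1 := h.agrow i hi
  have h2 := sLp g.sq (i + 1)
  rw [← g.sq.lm_succ i] at h2 ⊢
  calc lm (i + 1) * (9 / 1000) * (L i * a i) = lm (i + 1) * L i * (9 / 1000 * a i) := by ring
    _ ≤ _ := by gcongr

lemma Gsum (g : Gd lm L C ℓ M B T x f) (h : Stg lm L T x n σ a) : ∀ i ≤ n,
    lm i * ∑ j ∈ Finset.range i, L j * a (j + 1) ≤ 1001 / 1000 * (L i * a i) := by
  intro i
  induction i with
  | zero => intro h0; have := g.Gpos h 0 h0; simp; linarith
  | succ i ih =>
    intro hi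
    rw [Finset.sum_range_succ, mul_add]
    have h1 := ih (by omega)
    have h2 := g.Gstep h (i := i) (by omega)
    have h3 := g.sq.lm_big i
    have h3' := slm g.sq i
    have h4 := g.Gpos h i (by omega)
    have h6 := g.sq.lm_succ i
    have h7 := slm g.sq (i + 1)
    set S := ∑ j ∈ Finset.range i, L j * a (j + 1) with hS
    have h8 : lm (i + 1) * (L i * a (i + 1)) = L (i + 1) * a (i + 1) := by
      rw [← h6]; ring
    -- S ≤ 1001/1000 G / lm
    have h9 : lm (i + 1) * S ≤ 1 / 1000 * (L (i + 1) * a (i + 1)) := by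
      have a1 : lm i * (lm (i + 1) * S) ≤ lm i * (1 / 1000 * (L (i + 1) * a (i + 1))) := by
        calc lm i * (lm (i + 1) * S) = lm (i + 1) * (lm i * S) := by ring
          _ ≤ lm (i + 1) * (1001 / 1000 * (L i * a i)) := by gcongr
          _ = (1001 / 9) * (lm (i + 1) * (9 / 1000) * (L i * a i)) := by ring
          _ ≤ (1001 / 9) * (L (i + 1) * a (i + 1)) := by gcongr
          _ ≤ (lm i / 1000) * (L (i + 1) * a (i + 1)) :=
              mul_le_mul_of_nonneg_right (by linarith) (g.Gpos h (i + 1) hi).le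
          _ = _ := by ring
      exact le_of_mul_le_mul_left a1 h3'
    linarith

/-- elapsed time -/
lemma el (g : Gd lm L C ℓ M B T x f) (h : Stg lm L T x n σ a) {t1 : ℝ}
    (h1 : t1 ≤ σ n + 23 / 1000 * lm n / (L n * a n)) :
    ∀ k i, i + k = n → t1 - σ i ≤ 233 / 10000 * lm i / (L i * a i) := by
  intro k
  induction k with
  | zero =>
    intro i hi
    have : i = n := by omega
    subst this
    have hG := g.Gpos h i le_rfl
    have : 23 / 1000 * lm i / (L i * a i) ≤ 233 / 10000 * lm i / (L i * a i) := by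
      refine div_le_div_of_nonneg_right ?_ hG.le
      have := slm g.sq i
      linarith
    linarith
  | succ k ih =>
    intro i hi
    have h2 := ih (i + 1) (by omega)
    have h3 := h.dur i (by omega)
    have hG := g.Gpos h i (by omega)
    have hG' := g.Gpos h (i + 1) (by omega)
    have h4 := g.Gstep h (i := i) (by omega)
    have h5 := g.sq.lm_big i
    have h6' := slm g.sq (i + 1)
    have h6 : 233 / 10000 * lm (i + 1) / (L (i + 1) * a (i + 1))
        ≤ 3 / 10000 * lm i / (L i * a i) := by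
      rw [div_le_div_iff₀ hG' hG]
      calc 233 / 10000 * lm (i + 1) * (L i * a i)
          = (233 / 90) * (lm (i + 1) * (9 / 1000) * (L i * a i)) := by ring
        _ ≤ (233 / 90) * (L (i + 1) * a (i + 1)) := by gcongr
        _ ≤ (3 / 10000 * lm i) * (L (i + 1) * a (i + 1)) := by gcongr; linarith
    have h8 : 23 / 1000 * lm i / (L i * a i) + 3 / 10000 * lm i / (L i * a i)
        = 233 / 10000 * lm i / (L i * a i) := by ring
    linarith

lemma el' (g : Gd lm L C ℓ M B T x f) (h : Stg lm L T x n σ a) {t1 : ℝ}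
    (h1 : t1 ≤ σ n + 23 / 1000 * lm n / (L n * a n)) {i : ℕ} (hi : i ≤ n) :
    (t1 - σ i) * (L i * a i) ≤ 233 / 10000 * lm i := by
  have := g.el h h1 (n - i) i (by omega)
  rwa [le_div_iff₀ (g.Gpos h i hi)] at this

lemma σmono (h : Stg lm L T x n σ a) {i j : ℕ} (hij : i ≤ j) (hj : j ≤ n) : σ i ≤ σ j := by
  induction j with
  | zero => have : i = 0 := by omega
            rw [this]
  | succ j ih =>
    rcases hij.eq_or_lt with h1 | h1
    · rw [h1]
    · exact (ih (by omega) (by omega)).trans (h.σlt j (by omega)).le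

lemma σnn (h : Stg lm L T x n σ a) {i : ℕ} (hi : i ≤ n) : 0 ≤ σ i := by
  have := σmono h (Nat.zero_le i) hi
  rwa [h.σ0] at this

/-- total time -/
lemma tot (g : Gd lm L C ℓ M B T x f) (h : Stg lm L T x n σ a) {t1 : ℝ}
    (h1 : t1 ≤ σ n + 23 / 1000 * lm n / (L n * a n)) : t1 ≤ 233 / 10000 * lm 0 := by
  have h2 := g.el' h h1 (Nat.zero_le n)
  rw [h.σ0, h.a0, sub_zero, mul_one] at h2
  have h3 := sL1 g.sq 0
  rcases le_or_gt t1 0 with h4 | h4
  · have := slm g.sq 0; linarith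
  · nlinarith

lemma ph_time (g : Gd lm L C ℓ M B T x f) {t : ℝ} (h : t ≤ 233 / 10000 * lm 0) :
    ph lm 0 * t ≤ 1 / 10 ^ 20 := by
  have h1 := ph_small g.sq 0 1 (by norm_num)
  have h2 := EE_lm g.sq 0
  have h3 := ph_pos lm 0
  have h4 := slm g.sq 0
  calc ph lm 0 * t ≤ ph lm 0 * EE lm 0 := by gcongr; linarith
    _ = EE lm 0 ^ 1 * ph lm 0 := by ring
    _ ≤ _ := h1

/-- damping of the main modes -/
lemma vis (g : Gd lm L C ℓ M B T x f) (h : Stg lm L T x n σ a) (i : ℕ) (hi : i ≤ n) :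
    ℓ i * lm i ≤ 12 / 10 ^ 5 * (L i * a i) := by
  rcases i with _ | i
  · have h1 := g.sq.ℓ_zero
    rw [h.a0]
    have := sLp g.sq 0
    linarith
  · have h1 := g.sq.ℓ_succ i
    have h2 := alow h (i + 1) hi
    have h3 := g.sq.lm_succ i
    have h4 := slm g.sq (i + 1)
    have h5 := sLp g.sq (i + 1)
    have h6 : ℓ (i + 1) * lm (i + 1) ≤ 1 / 10 ^ 6 * (L (i + 1) * (9 / 1000) ^ i) := by
      calc ℓ (i + 1) * lm (i + 1) = 1 / 10 ^ 6 * (10 ^ 6 * ℓ (i + 1)) * lm (i + 1) := by ring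
        _ ≤ 1 / 10 ^ 6 * (L i * (9 / 1000) ^ i) * lm (i + 1) := by gcongr
        _ = 1 / 10 ^ 6 * ((lm (i + 1) * L i) * (9 / 1000) ^ i) := by ring
        _ = _ := by rw [h3]
    have h7 : (9 / 1000 : ℝ) ^ i ≤ 1000 / 9 * a (i + 1) := by
      have e : (9 / 1000 : ℝ) ^ i = 1000 / 9 * (9 / 1000) ^ (i + 1) := by
        rw [pow_succ]; ring
      rw [e]; gcongr
    calc ℓ (i + 1) * lm (i + 1) ≤ 1 / 10 ^ 6 * (L (i + 1) * (9 / 1000) ^ i) := h6
      _ ≤ 1 / 10 ^ 6 * (L (i + 1) * (1000 / 9 * a (i + 1))) := by gcongr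
      _ = 1 / 9000 * (L (i + 1) * a (i + 1)) := by ring
      _ ≤ _ := mul_le_mul_of_nonneg_right (by norm_num) (g.Gpos h (i + 1) hi).le

/-- coefficient of the source -/
noncomputable def kap (L C : ℕ → ℝ) (i : ℕ) : ℝ := if i = 0 then 0 else L (i - 1) * C (i - 1)

lemma kap_nonneg (q : Seq lm L C ℓ M B) (i : ℕ) : 0 ≤ kap L C i := by
  unfold kap
  split_ifs
  · exact le_rfl
  · exact mul_nonneg (sLp q _).le (sCp q _).le

lemma kap_lm (q : Seq lm L C ℓ M B) (i : ℕ) : kap L C i * lm i ≤ 1 / 10 ^ 20 * L i := by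
  unfold kap
  split_ifs with h0
  · have := sLp q i
    rw [zero_mul]; positivity
  · obtain ⟨j, rfl⟩ : ∃ j, i = j + 1 := ⟨i - 1, by omega⟩
    rw [Nat.add_sub_cancel]
    have h1 := C_small0 q j
    have h2 := q.lm_succ j
    have h3 := sLp q (j + 1)
    calc L j * C j * lm (j + 1) = C j * (lm (j + 1) * L j) := by ring
      _ = C j * L (j + 1) := by rw [h2]
      _ ≤ _ := by gcongr

lemma cG (g : Gd lm L C ℓ M B T x f) (h : Stg lm L T x n σ a) (i : ℕ) (hi : i ≤ n) :
    (kap L C i * (120 * a i) ^ 2 + 2 * ph lm i) * lm i ≤ 1 / 10 ^ 10 * a i * (L i * a i) := by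
  have q := g.sq
  have ha := apos h i hi
  have hL := sLp q i
  have h1 := kap_lm q i
  have h2 : kap L C i * (120 * a i) ^ 2 * lm i ≤ 1 / 10 ^ 15 * a i * (L i * a i) := by
    calc kap L C i * (120 * a i) ^ 2 * lm i = (kap L C i * lm i) * (14400 * a i ^ 2) := by ring
      _ ≤ (1 / 10 ^ 20 * L i) * (14400 * a i ^ 2) := by gcongr
      _ = (14400 / 10 ^ 20) * (a i * (L i * a i)) := by ring
      _ ≤ (1 / 10 ^ 15) * (a i * (L i * a i)) :=
          mul_le_mul_of_nonneg_right (by norm_num) (by positivity)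
      _ = _ := by ring
  have h3 : 2 * ph lm i * lm i ≤ 1 / 10 ^ 15 * a i * (L i * a i) := by
    have h4 := ph_small q i 2 (by norm_num)
    have h5 := g.aE h i hi
    have h6 := g.G1 h i hi
    have h7 := EE_lm' q (le_refl i)
    have h8 := ph_pos lm i
    have h9 := EE_pos (lm := lm) i
    calc 2 * ph lm i * lm i ≤ 2 * ph lm i * EE lm i * (EE lm i * a i) * (L i * a i) := by
          have : 2 * ph lm i * lm i ≤ 2 * ph lm i * EE lm i := by gcongr
          calc 2 * ph lm i * lm i ≤ 2 * ph lm i * EE lm i * 1 * 1 := by linarith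
            _ ≤ _ := by gcongr
      _ = 2 * (EE lm i ^ 2 * ph lm i) * (a i * (L i * a i)) := by ring
      _ ≤ 2 * (1 / 10 ^ 20) * (a i * (L i * a i)) := by gcongr
      _ ≤ 1 / 10 ^ 15 * (a i * (L i * a i)) := by gcongr; norm_num
      _ = _ := by ring
  have h4 : 0 < a i * (L i * a i) := by positivity
  rw [add_mul]
  nlinarith

/-- a priori bounds -/
lemma UB (g : Gd lm L C ℓ M B T x f) (h : Stg lm L T x n σ a) {t1 : ℝ} (hT : t1 ≤ T)
    (h1 : t1 ≤ σ n + 23 / 1000 * lm n / (L n * a n)) : ∀ i ≤ n,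
    (∀ t ∈ Ico (σ i) t1, U L x i t ≤ 121 / lm i * (L i * a i)) ∧
    (∀ t ∈ Ico (σ i) t1, √(Y x i t) ≤ 21 * a i) ∧
    (i < n → ∀ t ∈ Ico (σ (i + 1)) t1, √(Y x i t) ≤ 120 * a (i + 1)) := by
  intro i
  induction i using Nat.strong_induction_on with
  | _ i ih =>
  intro hi
  have q := g.sq
  have hlmb := q.lm_big i
  have hlm := slm q i
  have hGi := g.Gpos h i hi
  have hai := apos h i hi
  have htot := g.tot h h1
  set G := L i * a i with hG
  have hU : ∀ t ∈ Ico (σ i) t1, U L x i t ≤ 121 / lm i * G := by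
    intro t ht
    have h2 : U L x i t ≤ ∑ j ∈ Finset.range i, 120 * (L j * a (j + 1)) := by
      refine Finset.sum_le_sum fun j hj => ?_
      have hj' := Finset.mem_range.1 hj
      have h3 := (ih j hj' (by omega)).2.2 (by omega) t
        ⟨(σmono h (by omega) hi).trans ht.1, ht.2⟩
      have h4 := g.abs_le_sqrt (t := t) ⟨(σnn h hi).trans ht.1, ht.2.trans_le hT⟩ (le_refl j)
      have hLp := sLp q j
      calc L j * |x j t| ≤ L j * (120 * a (j + 1)) := by
            gcongr; exact h4.trans h3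
        _ = _ := by ring
    rw [← Finset.mul_sum] at h2
    have h3 := g.Gsum h i hi
    set S := ∑ j ∈ Finset.range i, L j * a (j + 1) with hS
    have h4 : S ≤ 1001 / 1000 / lm i * G := by
      rw [div_mul_eq_mul_div, le_div_iff₀ hlm]
      linarith
    calc U L x i t ≤ 120 * S := h2
      _ ≤ 120 * (1001 / 1000 / lm i * G) := by gcongr
      _ = 120 * 1001 / 1000 / lm i * G := by ring
      _ ≤ 121 / lm i * G := by gcongr; norm_num
  -- the source
  set c : ℝ := kap L C i * (120 * a i) ^ 2 + 2 * ph lm i with hc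
  have hkap := kap_nonneg q i
  have hph := ph_pos lm i
  have hc0 : 0 ≤ c := by rw [hc]; positivity
  have hx : ∀ t ∈ Ico (σ i) t1, src L C x i t + 2 * ph lm i ≤ c := by
    intro t ht
    rw [hc]
    have : src L C x i t ≤ kap L C i * (120 * a i) ^ 2 := by
      unfold src kap
      split_ifs with h0
      · simp
      · have h3 := (ih (i - 1) (by omega) (by omega)).2.2 (by omega) t (by
          rw [Nat.sub_add_cancel (by omega)]; exact ht)
        rw [Nat.sub_add_cancel (by omega)] at h3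
        have h4 := g.abs_le_sqrt (t := t) ⟨(σnn h hi).trans ht.1, ht.2.trans_le hT⟩
          (le_refl (i - 1))
        have h6 : x (i - 1) t ^ 2 ≤ (120 * a i) ^ 2 := by
          rw [← sq_abs]; gcongr; exact h4.trans h3
        have := sLp q (i - 1)
        have := sCp q (i - 1)
        gcongr
    linarith
  have hcG : c * lm i ≤ 1 / 10 ^ 10 * a i * G := g.cG h i hi
  set r : ℝ := 1001 / 1000 * (121 / lm i * G) + ph lm 0 with hr
  have hph0 := ph_pos lm 0
  have hr0 : 0 ≤ r := by positivity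
  refine ⟨hU, fun t ht => ?_, fun hin t ht => ?_⟩
  · have ht0 : 0 ≤ t - σ i := by linarith [ht.1]
    have hel : (t - σ i) * G ≤ 233 / 10000 * lm i := by
      have := g.el' h h1 hi
      have h2 : (t - σ i) * G ≤ (t1 - σ i) * G := by gcongr; exact ht.2.le
      linarith
    have h2 := g.grow i (α := σ i) (t := t) (q := r) (c := c) (σnn h hi) ht.1
      (ht.2.trans_le hT) hr0 hc0
      (fun τ hτ => by
        have := hU τ ⟨hτ.1.le, hτ.2.trans ht.2⟩
        rw [hr]; gcongr)
      (fun τ hτ => hx τ ⟨hτ.1.le, hτ.2.trans ht.2⟩)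
    rw [h.aY i hi] at h2
    have h3 : r * (t - σ i) ≤ 3 := by
      have e : r * (t - σ i) = 1001 / 1000 * 121 * ((t - σ i) * G) / lm i
          + ph lm 0 * (t - σ i) := by
        rw [hr]; field_simp
      have e2 : 1001 / 1000 * 121 * ((t - σ i) * G) / lm i ≤ 29 / 10 := by
        rw [div_le_iff₀ hlm]
        nlinarith
      have e3 : ph lm 0 * (t - σ i) ≤ 1 / 10 ^ 20 := g.ph_time (by
        have := σnn h hi
        linarith [ht.2])
      rw [e]
      linarith
    have h4 : c * (t - σ i) ≤ 1 / 1000 * a i := by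
      have h6 : (c * (t - σ i)) * lm i ≤ (1 / 1000 * a i) * lm i := by
        calc (c * (t - σ i)) * lm i = (c * lm i) * (t - σ i) := by ring
          _ ≤ (1 / 10 ^ 10 * a i * G) * (t - σ i) := by gcongr
          _ = 1 / 10 ^ 10 * a i * ((t - σ i) * G) := by ring
          _ ≤ 1 / 10 ^ 10 * a i * (233 / 10000 * lm i) := by gcongr
          _ = (233 / 10 ^ 14) * (a i * lm i) := by ring
          _ ≤ (1 / 1000) * (a i * lm i) :=
              mul_le_mul_of_nonneg_right (by norm_num) (by positivity)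
          _ = _ := by ring
      exact le_of_mul_le_mul_right h6 hlm
    calc √(Y x i t) ≤ Real.exp (r * (t - σ i)) * (a i + c * (t - σ i)) := h2
      _ ≤ 209 / 10 * (a i + 1 / 1000 * a i) := by
          have := Good.exp3 h3
          have := Real.exp_pos (r * (t - σ i))
          have : 0 ≤ c * (t - σ i) := mul_nonneg hc0 ht0
          gcongr
      _ ≤ 21 * a i := by linarith
  · have hσσ : σ i ≤ σ (i + 1) := (h.σlt i hin).le
    have hG1 := g.Gpos h (i + 1) (by omega)
    have ha1 := apos h (i + 1) (by omega)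
    have hst := g.Gstep h hin
    have hlm1 := slm q (i + 1)
    set G1 := L (i + 1) * a (i + 1) with hG1d
    have ht0 : 0 ≤ t - σ (i + 1) := by linarith [ht.1]
    have hel : (t - σ (i + 1)) * G1 ≤ 233 / 10000 * lm (i + 1) := by
      have := g.el' h h1 (i := i + 1) (by omega)
      have h2 : (t - σ (i + 1)) * G1 ≤ (t1 - σ (i + 1)) * G1 := by gcongr; exact ht.2.le
      linarith
    have hel2 : (t - σ (i + 1)) * G ≤ 3 := by
      have h2 : (t - σ (i + 1)) * (lm (i + 1) * (9 / 1000) * G) ≤ 233 / 10000 * lm (i + 1) :=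
        (by gcongr : _ ≤ _).trans hel
      have h3 : ((t - σ (i + 1)) * G) * lm (i + 1) ≤ 3 * lm (i + 1) := by nlinarith
      exact le_of_mul_le_mul_right h3 hlm1
    have h2 := g.grow i (α := σ (i + 1)) (t := t) (q := r) (c := c) (σnn h (by omega)) ht.1
      (ht.2.trans_le hT) hr0 hc0
      (fun τ hτ => by
        have := hU τ ⟨hσσ.trans hτ.1.le, hτ.2.trans ht.2⟩
        rw [hr]; gcongr)
      (fun τ hτ => hx τ ⟨hσσ.trans hτ.1.le, hτ.2.trans ht.2⟩)
    have hσT : σ (i + 1) < T := (σmono h (by omega) le_rfl).trans_lt h.σT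
    have h3 : √(Y x i (σ (i + 1))) ≤ 101 * a (i + 1) := by
      rw [g.Y_succ ⟨σnn h (by omega), hσT⟩, h.cross i hin]
      have h4 : Y x (i + 1) (σ (i + 1)) = a (i + 1) ^ 2 := by
        rw [← h.aY (i + 1) (by omega), Real.sq_sqrt (Y_nonneg _ _)]
      rw [h4]
      apply Real.sqrt_le_iff.2
      constructor
      · positivity
      · nlinarith
    have h4 : r * (t - σ (i + 1)) ≤ 1 / 100 := by
      have e : r * (t - σ (i + 1)) = 1001 / 1000 * 121 * ((t - σ (i + 1)) * G) / lm i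
          + ph lm 0 * (t - σ (i + 1)) := by
        rw [hr]; field_simp
      have e2 : 1001 / 1000 * 121 * ((t - σ (i + 1)) * G) / lm i ≤ 1 / 200 := by
        rw [div_le_iff₀ hlm]
        nlinarith
      have e3 : ph lm 0 * (t - σ (i + 1)) ≤ 1 / 10 ^ 20 := g.ph_time (by
        have := σnn h (i := i + 1) (by omega)
        linarith [ht.2])
      rw [e]
      linarith
    have h6 : c * (t - σ (i + 1)) ≤ 1 / 1000 * a (i + 1) := by
      have h8 := h.agrow i hin
      have h9 : a i ≤ 1000 / 9 * a (i + 1) := by linarith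
      have h6 : (c * (t - σ (i + 1))) * lm i ≤ (1 / 1000 * a (i + 1)) * lm i := by
        calc (c * (t - σ (i + 1))) * lm i = (c * lm i) * (t - σ (i + 1)) := by ring
          _ ≤ (1 / 10 ^ 10 * a i * G) * (t - σ (i + 1)) := by gcongr
          _ = 1 / 10 ^ 10 * a i * ((t - σ (i + 1)) * G) := by ring
          _ ≤ 1 / 10 ^ 10 * (1000 / 9 * a (i + 1)) * 3 := by gcongr
          _ ≤ (1 / 1000 * a (i + 1)) * 10 ^ 30 := by nlinarith
          _ ≤ _ := by gcongr
      exact le_of_mul_le_mul_right h6 hlm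
    calc √(Y x i t) ≤ Real.exp (r * (t - σ (i + 1))) * (√(Y x i (σ (i + 1)))
          + c * (t - σ (i + 1))) := h2
      _ ≤ 102 / 100 * (101 * a (i + 1) + 1 / 1000 * a (i + 1)) := by
          have := Good.exp_le h4
          have := Real.exp_pos (r * (t - σ (i + 1)))
          gcongr
      _ ≤ 120 * a (i + 1) := by linarith

/-- lower bound of the previous mode -/
lemma C4 (g : Gd lm L C ℓ M B T x f) {m : ℕ} (h : Stg lm L T x (m + 1) σ a)
    (hc : Cur lm L T x (m + 1) σ a t1) : ∀ t ∈ Ico (σ (m + 1)) t1,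
    50 * a (m + 1) ≤ x m t ∧ U L x m t ≤ 1 / 1000 * (L m * a (m + 1)) := by
  have q := g.sq
  have hlm := slm q m
  have hlmb := q.lm_big m
  have hlm1 := slm q (m + 1)
  have hL := sLp q m
  have hC := sCp q m
  have hub := g.UB h hc.leT hc.le m (by omega)
  have hub1 := g.UB h hc.leT hc.le (m + 1) le_rfl
  have ha := apos h (m + 1) le_rfl
  have ham := apos h m (by omega)
  have hGm := g.Gpos h m (by omega)
  have hGm1 := g.G1 h m (by omega)
  have hag := h.agrow m (by omega)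
  have hvis := g.vis h m (by omega)
  have hCs' := C_small0 q m
  have he := q.lm_succ m
  set Gm := L m * a m with hGmd
  set P := L m * a (m + 1) with hP
  have hP0 : 0 < P := by positivity
  have hGP : 9 / 1000 * Gm ≤ P := by
    rw [hGmd, hP]
    calc 9 / 1000 * (L m * a m) = L m * (9 / 1000 * a m) := by ring
      _ ≤ _ := by gcongr
  have hP1 : 9 / 1000 ≤ P := by linarith
  have hUm : ∀ t ∈ Ico (σ (m + 1)) t1, U L x m t ≤ 1 / 1000 * P := by
    intro t ht
    have h1 := hub.1 t ⟨(h.σlt m (by omega)).le.trans ht.1, ht.2⟩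
    refine h1.trans ?_
    have h2 : 121 / lm m ≤ 1 / 10 ^ 6 := by
      rw [div_le_div_iff₀ hlm (by positivity)]; linarith
    calc 121 / lm m * Gm ≤ 1 / 10 ^ 6 * (1000 / 9 * P) := by gcongr; linarith
      _ ≤ _ := by linarith
  intro t ht
  refine ⟨?_, hUm t ht⟩
  set R := 500 * a (m + 1) * P with hR
  have hd : ℓ m ≤ 1 / 1000 * P := by
    have h1 : ℓ m * 10 ^ 30 ≤ ℓ m * lm m := by
      have := q.ℓ_nonneg m
      gcongr
    nlinarith
  have hph : ph lm m ≤ a (m + 1) * P := by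
    have h1 := g.aE h m (by omega)
    have h2 := ph_small q m 1 (by norm_num)
    have h3 := EE_pos (lm := lm) m
    have h4 := ph_pos lm m
    have h5 : ph lm m ≤ 1 / 10 ^ 20 * a m := by
      calc ph lm m = ph lm m * 1 := (mul_one _).symm
        _ ≤ ph lm m * (EE lm m * a m) := by gcongr
        _ = (EE lm m ^ 1 * ph lm m) * a m := by ring
        _ ≤ _ := by gcongr
    calc ph lm m ≤ 1 / 10 ^ 20 * a m := h5
      _ ≤ 1 / 10 ^ 20 * (1000 / 9 * a (m + 1)) := by gcongr; linarith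
      _ = (1000 / 9 / 10 ^ 20) * a (m + 1) := by ring
      _ ≤ P * a (m + 1) := by
          gcongr
          refine le_trans ?_ hP1
          norm_num
      _ = _ := mul_comm _ _
  have hph0 := ph_small0 q 0
  have hα0 : 0 ≤ σ (m + 1) := σnn h le_rfl
  have h1 := mono_of (f := fun τ => x m τ + R * τ)
    (f' := fun τ => (vf3 L C ℓ B (fun k => x k τ) m + f m τ) + R) ht.1
    (((g.cont m).mono fun τ hτ => ⟨hα0.trans hτ.1, hτ.2.trans_lt (ht.2.trans_le hc.leT)⟩).add
      (by fun_prop))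
    (fun τ hτ => by
      have := (g.derivAt m (t := τ) ⟨hα0.trans_lt hτ.1, hτ.2.trans (ht.2.trans_le hc.leT)⟩).fun_add
        ((hasDerivAt_id τ).const_mul R)
      simpa using this)
    (fun τ hτ => by
      have hτ1 : τ ∈ Ico (σ (m + 1)) t1 := ⟨hτ.1.le, hτ.2.trans ht.2⟩
      have hτI : τ ∈ Ico 0 T := ⟨hα0.trans hτ.1.le, hτ.2.trans (ht.2.trans_le hc.leT)⟩
      have h2 := g.vf_ge hτI m
      have h3 : |x m τ| ≤ 120 * a (m + 1) :=
        (g.abs_le_sqrt hτI le_rfl).trans (hub.2.2 (by omega) τ hτ1)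
      have h4 : |x (m + 1) τ| ≤ 21 * a (m + 1) :=
        (g.abs_le_sqrt hτI le_rfl).trans (hub1.2.1 τ hτ1)
      have h6 : Y x (m + 1) τ ≤ 441 * a (m + 1) ^ 2 := by
        have := hub1.2.1 τ hτ1
        calc Y x (m + 1) τ = √(Y x (m + 1) τ) ^ 2 := (Real.sq_sqrt (Y_nonneg _ _)).symm
          _ ≤ (21 * a (m + 1)) ^ 2 := by gcongr
          _ = _ := by ring
      have h7 := hUm τ hτ1
      have h8 : C m * L m * |x (m + 1) τ| ≤ 1 / 1000 * P := by
        calc C m * L m * |x (m + 1) τ| ≤ C m * L m * (21 * a (m + 1)) := by gcongr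
          _ = 21 * C m * P := by rw [hP]; ring
          _ ≤ 1 / 1000 * P := by gcongr; linarith
      have h9 : (ℓ m + C m * L m * |x (m + 1) τ|
          + 1001 / 1000 * U L x m τ + ph lm 0) * |x m τ| ≤ 5 / 1000 * P * (120 * a (m + 1)) := by
        have := U_nonneg (x := x) q m τ
        have := ph_pos lm 0
        have := q.ℓ_nonneg m
        gcongr
        linarith
      have h10 : 1001 / 1000 * L m * Y x (m + 1) τ ≤ 442 * a (m + 1) * P := by
        calc 1001 / 1000 * L m * Y x (m + 1) τ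
            ≤ 1001 / 1000 * L m * (441 * a (m + 1) ^ 2) := by gcongr
          _ = 1001 / 1000 * 441 * (a (m + 1) * P) := by rw [hP]; ring
          _ ≤ 442 * (a (m + 1) * P) := by gcongr; norm_num
          _ = _ := by ring
      have h11 := src_nonneg (x := x) q m τ
      have h12 : 0 < a (m + 1) * P := by positivity
      rw [hR]
      nlinarith)
  rw [h.cross m (by omega)] at h1
  have hel : (t - σ (m + 1)) * P ≤ 233 / 10000 := by
    have h2 := g.el' h hc.le (i := m + 1) le_rfl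
    have hG1 := g.Gpos h (m + 1) le_rfl
    have h3 : (t - σ (m + 1)) * (L (m + 1) * a (m + 1))
        ≤ (t1 - σ (m + 1)) * (L (m + 1) * a (m + 1)) := by
      gcongr; exact ht.2.le
    have h4 : (t - σ (m + 1)) * (L (m + 1) * a (m + 1))
        = ((t - σ (m + 1)) * P) * lm (m + 1) := by rw [← he, hP]; ring
    rw [h4] at h3
    exact le_of_mul_le_mul_right (h3.trans h2) hlm1
  have h2 : R * t - R * σ (m + 1) = 500 * a (m + 1) * ((t - σ (m + 1)) * P) := by
    rw [hR]; ring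
  have h3 : 500 * a (m + 1) * ((t - σ (m + 1)) * P) ≤ 500 * a (m + 1) * (233 / 10000) := by
    gcongr
  linarith

lemma strain_nonneg (g : Gd lm L C ℓ M B T x f) (h : Stg lm L T x n σ a)
    (hc : Cur lm L T x n σ a t1) {t : ℝ} (ht : t ∈ Ico (σ n) t1) :
    0 ≤ ∑ i ∈ Finset.range n, L i * B i n * x i t := by
  rcases n with _ | m
  · simp
  · rw [Finset.sum_range_succ]
    obtain ⟨h1, h2⟩ := g.C4 h hc t ht
    have h3 := (abs_le.1 (strain (x := x) g.sq (m := m) (k := m + 1) (by omega) t)).1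
    have ha := apos h (m + 1) le_rfl
    have hB := g.sq.B_lo m (m + 1) (by omega)
    have hL := sLp g.sq m
    have h4 : L m * (999 / 1000) * (50 * a (m + 1)) ≤ L m * B m (m + 1) * x m t := by
      gcongr
    have h5 : 0 < L m * a (m + 1) := by positivity
    nlinarith

end Gd

end Pool.Agent.Y5.D
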