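import Pool.Agent.Y5.D.P5

/-! One stage. -/

open Set Filter Topology MeasureTheory

set_option autoImplicit false

namespace Pool.Agent.Y5.D

namespace Gd

variable {lm L C ℓ M : ℕ → ℝ} {B : ℕ → ℕ → ℝ} {T : ℝ} {x f : ℕ → ℝ → ℝ}
variable {n : ℕ} {σ a : ℕ → ℝ} {t1 : ℝ}

theorem stage (g : Gd lm L C ℓ M B T x f) (h : Stg lm L T x n σ a)
    (hc : Cur lm L T x n σ a t1) {t : ℝ} (ht : t ∈ Ioo (σ n) t1)
    (hr0 : -(C n / 8) ≤ x (n + 1) (σ n) / x n (σ n))
    (hP : ∀ τ ∈ Ico (σ n) t, √(Y x (n + 2) τ) ≤ eta lm (n + 1) ∧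
      -(x (n + 1) τ / x n τ) < C n / 4) :
    99 / 100 * a n ≤ x n t ∧
    I L x n t - I L x n (σ n) ≤ 211 / 10000 * lm n ∧
    I L x (n + 1) t - I L x (n + 1) (σ n) ≤ 1004 / 100000 * lm (n + 1) ∧
    -(C n / 8) ≤ x (n + 1) t / x n t := by
  have q := g.sq
  have hlm := slm q n
  have hlm1 := slm q (n + 1)
  have hC := sCp q n
  have hCs' := C_small0 q n
  have h0 : 0 ≤ σ n := σnn h le_rfl
  have ha := apos h n le_rfl
  have htT : t < T := ht.2.trans_le hc.leT
  have ht0 : 0 < t := h0.trans_lt ht.1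
  have hsub : Icc (σ n) t ⊆ Ico 0 T := fun τ hτ => ⟨h0.trans hτ.1, hτ.2.trans_lt htT⟩
  have hX : ∀ τ ∈ Icc (σ n) t, 0 < x n τ := fun τ hτ => Xpos h hc ⟨hτ.1, hτ.2.trans_lt ht.2⟩
  set Λ := L n with hL
  have hLp : 0 < Λ := sLp q n
  have he : L (n + 1) = lm (n + 1) * Λ := (q.lm_succ n).symm
  set c := C n with hcd
  -- the ratio
  set r : ℝ → ℝ := fun τ => x (n + 1) τ / x n τ with hr
  set r' : ℝ → ℝ := fun τ => ((vf3 L C ℓ B (fun k => x k τ) (n + 1) + f (n + 1) τ) * x n τ
    - x (n + 1) τ * (vf3 L C ℓ B (fun k => x k τ) n + f n τ)) / x n τ ^ 2 with hr'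
  have hrc : ContinuousOn r (Icc (σ n) t) :=
    ((g.cont (n + 1)).mono hsub).div ((g.cont n).mono hsub) fun τ hτ => (hX τ hτ).ne'
  have hrd : ∀ τ ∈ Ioo (σ n) t, HasDerivAt r (r' τ) τ := fun τ hτ => by
    have hτT : τ ∈ Ioo 0 T := ⟨h0.trans_lt hτ.1, hτ.2.trans htT⟩
    exact (g.derivAt (n + 1) hτT).fun_div (g.derivAt n hτT) (hX τ ⟨hτ.1.le, hτ.2.le⟩).ne'
  have hrlow : ∀ τ ∈ Ico (σ n) t, -(c / 4) < r τ := fun τ hτ => by
    have := (hP τ hτ).2
    linarith
  have hrge : ∀ τ ∈ Ioo (σ n) t, 997 / 1000 * (Λ * x n τ * (r τ + 99 / 100 * c)) ≤ r' τ :=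
    fun τ hτ => by
      have hτ1 : τ ∈ Ico (σ n) t1 := ⟨hτ.1.le, hτ.2.trans ht.2⟩
      have hPτ := hP τ ⟨hτ.1.le, hτ.2⟩
      have hXτ := hX τ ⟨hτ.1.le, hτ.2.le⟩
      obtain ⟨hu, hd⟩ := g.Xud h hc hτ1
      refine rder2 hXτ hC hLp ?_ (g.Zder h hc hτ1 hPτ.1) hu hd
      have h1 := hrlow τ ⟨hτ.1.le, hτ.2⟩
      simp only [hr] at h1
      rw [lt_div_iff₀ hXτ] at h1
      linarith
  have hr'0 : ∀ τ ∈ Ioo (σ n) t, 0 ≤ r' τ := fun τ hτ => by
    have h1 := hrlow τ ⟨hτ.1.le, hτ.2⟩
    have hXτ := hX τ ⟨hτ.1.le, hτ.2.le⟩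
    refine le_trans ?_ (hrge τ hτ)
    have : 0 ≤ r τ + 99 / 100 * c := by linarith
    positivity
  have hrmono : r (σ n) ≤ r t := mono_of ht.1.le hrc hrd hr'0
  have hrt : |r t| ≤ 1 / 100 := by
    simp only [hr]
    have hXt := hX t ⟨ht.1.le, le_rfl⟩
    rw [abs_div, abs_of_pos hXt, div_le_iff₀ hXt]
    exact g.Zabs h hc ⟨ht.1.le, ht.2⟩
  have hrt' := le_of_abs_le hrt
  refine ⟨?_, ?_, ?_, hr0.trans hrmono⟩
  · -- lower bound for the mode
    set d := dl lm L ℓ n with hd
    have hd0 : 0 ≤ d := dl_nonneg q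
    have hmono := mono_of (f := fun τ => Real.log (x n τ) + 503 / 1000 * (r τ + 99 / 100 * c) ^ 2
        + d * τ)
      (f' := fun τ => (vf3 L C ℓ B (fun k => x k τ) n + f n τ) / x n τ
        + 503 / 1000 * (2 * (r τ + 99 / 100 * c) * r' τ) + d) ht.1.le
      (by
        refine ContinuousOn.add (ContinuousOn.add ?_ ?_) (by fun_prop)
        · exact ContinuousOn.log ((g.cont n).mono hsub) fun τ hτ => (hX τ hτ).ne'
        · exact continuousOn_const.mul ((hrc.add continuousOn_const).pow 2))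
      (fun τ hτ => by
        have hτT : τ ∈ Ioo 0 T := ⟨h0.trans_lt hτ.1, hτ.2.trans htT⟩
        have h1 := (g.derivAt n hτT).log (hX τ ⟨hτ.1.le, hτ.2.le⟩).ne'
        have h2 := (((hrd τ hτ).add_const (99 / 100 * c)).fun_pow 2).const_mul (503 / 1000 : ℝ)
        have h3 := (h1.fun_add h2).fun_add ((hasDerivAt_id τ).const_mul d)
        simpa using h3)
      (fun τ hτ => by
        have hτ1 : τ ∈ Ico (σ n) t1 := ⟨hτ.1.le, hτ.2.trans ht.2⟩
        have hPτ := hP τ ⟨hτ.1.le, hτ.2⟩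
        have hXτ := hX τ ⟨hτ.1.le, hτ.2.le⟩
        have h1 := g.Xlo h hc hτ1 hPτ.1
        have h2 := hrge τ hτ
        have h3 := hrlow τ ⟨hτ.1.le, hτ.2⟩
        have e1 : x (n + 1) τ = r τ * x n τ := by simp only [hr]; field_simp
        have h4 : -d - c * (Λ * x n τ * |r τ|) - 1001 / 1000 * (Λ * x n τ * r τ ^ 2)
            ≤ (vf3 L C ℓ B (fun k => x k τ) n + f n τ) / x n τ := by
          rw [le_div_iff₀ hXτ]
          refine le_trans (le_of_eq ?_) h1
          rw [e1, abs_mul, abs_of_pos hXτ]; ring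
        have hρ : 0 ≤ r τ + 99 / 100 * c := by linarith
        have h5' : 2 * (r τ + 99 / 100 * c) * (997 / 1000 * (Λ * x n τ * (r τ + 99 / 100 * c)))
            ≤ 2 * (r τ + 99 / 100 * c) * r' τ := by gcongr
        have h6 : 0 < Λ * x n τ := by positivity
        have h7 : c * |r τ| + 1001 / 1000 * r τ ^ 2
            ≤ 1002 / 1000 * (r τ + 99 / 100 * c) ^ 2 := by
          rcases le_total 0 (r τ) with h8 | h8
          · rw [abs_of_nonneg h8]
            nlinarith [mul_nonneg h8 hC.le, sq_nonneg c, sq_nonneg (r τ)]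
          · rw [abs_of_nonpos h8]
            have h9 : 0 ≤ -(r τ) := by linarith
            have h10 : -(r τ) ≤ c / 4 := by linarith
            have h11 : (r τ) ^ 2 ≤ (c / 4) ^ 2 := by
              rw [← neg_sq]; gcongr
            have h12 : (74 / 100 * c) ^ 2 ≤ (r τ + 99 / 100 * c) ^ 2 := by
              have : 74 / 100 * c ≤ r τ + 99 / 100 * c := by linarith
              gcongr
            have h13 : c * -(r τ) ≤ c * (c / 4) := by gcongr
            nlinarith [sq_nonneg c]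
        have h8 := mul_le_mul_of_nonneg_left h7 h6.le
        nlinarith)
    -- conclusion
    have hdt : d * (t - σ n) ≤ 1 / 10 ^ 5 := g.dl_time h hc ⟨ht.1.le, ht.2⟩
    have hsq1 : 0 ≤ (r (σ n) + 99 / 100 * c) ^ 2 := sq_nonneg _
    have hsq2 : (r t + 99 / 100 * c) ^ 2 ≤ (2 / 100) ^ 2 := by
      have h1 := abs_le.1 hrt
      have h2 : c ≤ 1 / 10 ^ 20 := hCs'
      rw [← sq_abs]
      gcongr
      rw [abs_le]
      constructor <;> linarith [h1.1, h1.2]
    have hlog : Real.log (x n (σ n)) - 1 / 1000 ≤ Real.log (x n t) := by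
      have e : d * t - d * σ n = d * (t - σ n) := by ring
      norm_num at hsq2
      nlinarith
    have hXa := hX (σ n) ⟨le_rfl, ht.1.le⟩
    have hXt := hX t ⟨ht.1.le, le_rfl⟩
    have h6 : x n (σ n) * Real.exp (-(1 / 1000)) ≤ x n t := by
      have := Real.exp_le_exp.2 hlog
      rw [Real.exp_log hXt, sub_eq_add_neg, Real.exp_add, Real.exp_log hXa] at this
      exact this
    have h7 : 1 - 1 / 1000 ≤ Real.exp (-(1 / 1000)) := by
      have := Real.add_one_le_exp (-(1 / 1000) : ℝ); linarith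
    have h8 := h.init
    have h9 : x n (σ n) * (1 - 1 / 1000) ≤ x n (σ n) * Real.exp (-(1 / 1000)) := by gcongr
    linarith
  · -- integral of the mode
    have hpos : ∀ τ ∈ Icc (σ n) t, 0 < r τ + 99 / 100 * c := fun τ hτ => by
      rcases hτ.2.eq_or_lt with h3 | h3
      · rw [h3]; linarith
      · have := hrlow τ ⟨hτ.1, h3⟩; linarith
    have h1 := incr_le (f := fun τ => 1000 / 997 * Real.log (r τ + 99 / 100 * c))
      (f' := fun τ => 1000 / 997 * (r' τ / (r τ + 99 / 100 * c)))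
      (g := fun τ => L n * |x n τ|) (T := T) (a := σ n) (b := t) (g.cabs n)
      ⟨h0, ht.1.trans htT⟩ ⟨ht0.le, htT⟩ ht.1.le
      (by
        refine continuousOn_const.mul (ContinuousOn.log (hrc.add continuousOn_const) ?_)
        exact fun τ hτ => (hpos τ hτ).ne')
      (fun τ hτ => by
        have := hpos τ ⟨hτ.1.le, hτ.2.le⟩
        exact (((hrd τ hτ).add_const (99 / 100 * c)).log this.ne').const_mul _)
      (fun τ hτ => by
        have h2 := hpos τ ⟨hτ.1.le, hτ.2.le⟩
        have h3 := hrge τ hτ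
        have h4 := hX τ ⟨hτ.1.le, hτ.2.le⟩
        have h6 : 997 / 1000 * (Λ * x n τ) ≤ r' τ / (r τ + 99 / 100 * c) := by
          rw [le_div_iff₀ h2]
          linarith
        rw [abs_of_pos h4]
        linarith)
    refine h1.trans ?_
    have h2 : Real.log (r t + 99 / 100 * c) ≤ 0 := by
      apply Real.log_nonpos
      · exact (hpos t ⟨ht.1.le, le_rfl⟩).le
      · linarith
    have h3 : -(21 / 1000 * lm n) ≤ Real.log (r (σ n) + 99 / 100 * c) := by
      rw [Real.le_log_iff_exp_le (hpos (σ n) ⟨le_rfl, ht.1.le⟩)]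
      have h4 : Real.exp (-(21 / 1000) * lm n) ≤ 1 / 10 ^ 20 * C n := by
        have h5 := C_lo' q n
        have h6 := exp_small q n (β := -(9 / 10000 + 1 / 10000)) (by norm_num)
        have h7 : Real.exp (-(21 / 1000) * lm n) ≤ Real.exp (-(9 / 10000) * lm n) * Real.exp (-(201 / 10000) * lm n) := by
          rw [← Real.exp_add]; apply le_of_eq; congr 1; ring
        have h8 : Real.exp (-(9 / 10000) * lm n) ≤ 1 / 10 ^ 20 := by
          have h9 := q.lm_big n
          have h10 : Real.exp (-(9 / 10000) * lm n) ≤ Real.exp (-(10 ^ 26)) := by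
            apply Real.exp_le_exp.2
            nlinarith
          refine h10.trans ?_
          rw [Real.exp_neg, ← one_div]
          apply one_div_le_one_div_of_le (by positivity)
          linarith [Real.add_one_le_exp ((10 : ℝ) ^ 26)]
        refine h7.trans ?_
        have := Real.exp_pos (-(201 / 10000) * lm n)
        gcongr
      have e : -(21 / 1000 * lm n) = -(21 / 1000) * lm n := by ring
      rw [e]
      have h5 : -(c / 8) ≤ r (σ n) := hr0
      refine h4.trans ?_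
      rw [← hcd]
      linarith
    have h4 : 1000 / 997 * Real.log (r t + 99 / 100 * c)
        - 1000 / 997 * Real.log (r (σ n) + 99 / 100 * c)
        ≤ 1000 / 997 * (21 / 1000 * lm n) := by linarith
    refine h4.trans ?_
    linarith
  · -- integral of the next mode
    have h1 := incr_le (f := fun τ => 1000 / 997 * lm (n + 1) * r τ)
      (f' := fun τ => 1000 / 997 * lm (n + 1) * r' τ)
      (g := fun τ => L (n + 1) * |x (n + 1) τ|) (T := T) (a := σ n) (b := t)
      (g.cabs (n + 1))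
      ⟨h0, ht.1.trans htT⟩ ⟨ht0.le, htT⟩ ht.1.le
      (continuousOn_const.mul hrc)
      (fun τ hτ => (hrd τ hτ).const_mul _)
      (fun τ hτ => by
        have h2 := hrlow τ ⟨hτ.1.le, hτ.2⟩
        have h3 := hrge τ hτ
        have h4 := hX τ ⟨hτ.1.le, hτ.2.le⟩
        have e1 : x (n + 1) τ = r τ * x n τ := by simp only [hr]; field_simp
        rw [he, e1, abs_mul, abs_of_pos h4]
        have h6 : 997 / 1000 * (Λ * x n τ * |r τ|) ≤ r' τ := by
          refine le_trans ?_ h3
          have : |r τ| ≤ r τ + 99 / 100 * c := by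
            rw [abs_le]; constructor <;> linarith
          gcongr
        have h7 : Λ * x n τ * |r τ| ≤ 1000 / 997 * r' τ := by linarith
        calc lm (n + 1) * Λ * (|r τ| * x n τ) = lm (n + 1) * (Λ * x n τ * |r τ|) := by ring
          _ ≤ lm (n + 1) * (1000 / 997 * r' τ) := by gcongr
          _ = _ := by ring)
    refine h1.trans ?_
    have h2 : 1000 / 997 * lm (n + 1) * r t ≤ 1000 / 997 * lm (n + 1) * (1 / 100) := by gcongr
    have h3 : -(1000 / 997 * lm (n + 1) * r (σ n)) ≤ 1000 / 997 * lm (n + 1) * (1 / 10 ^ 6) := by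
      have h4 : -(r (σ n)) ≤ 1 / 10 ^ 6 := by
        have : -(c / 8) ≤ r (σ n) := hr0
        linarith
      have e : -(1000 / 997 * lm (n + 1) * r (σ n)) = 1000 / 997 * lm (n + 1) * (-(r (σ n))) := by
        ring
      rw [e]; gcongr
    linarith

/-- duration of a stage -/
lemma stage_time (g : Gd lm L C ℓ M B T x f) (h : Stg lm L T x n σ a)
    (hc : Cur lm L T x n σ a t1) {t : ℝ} (ht : t ∈ Ioo (σ n) t1)
    (hr0 : -(C n / 8) ≤ x (n + 1) (σ n) / x n (σ n))
    (hP : ∀ τ ∈ Ico (σ n) t, √(Y x (n + 2) τ) ≤ eta lm (n + 1) ∧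
      -(x (n + 1) τ / x n τ) < C n / 4) :
    (t - σ n) * (L n * a n) ≤ 214 / 10000 * lm n := by
  have q := g.sq
  have h0 : 0 ≤ σ n := σnn h le_rfl
  have ha := apos h n le_rfl
  have htT : t < T := ht.2.trans_le hc.leT
  have hLp := sLp q n
  have hlm := slm q n
  have h1 := (g.stage h hc ht hr0 hP).2.1
  have h2 := Pr_ge_lin (g.cabs n) (α := σ n) (t := t) (c := L n * (99 / 100 * a n)) h0 htT
    ht.1.le (fun τ hτ => by
      have h3 := (g.stage h hc (t := τ) ⟨hτ.1, hτ.2.trans ht.2⟩ hr0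
        (fun w hw => hP w ⟨hw.1, hw.2.trans hτ.2⟩)).1
      have : 99 / 100 * a n ≤ |x n τ| := h3.trans (le_abs_self _)
      gcongr)
  unfold I at h1
  nlinarith

/-- integrals of the lower modes -/
lemma preG (g : Gd lm L C ℓ M B T x f) (h : Stg lm L T x n σ a) (hT : t1 ≤ T)
    (h1 : t1 ≤ σ n + 23 / 1000 * lm n / (L n * a n)) {i : ℕ} (hi : i < n) {t : ℝ}
    (ht : t ∈ Ico 0 t1) : I L x i t ≤ lm i / 25 := by
  have q := g.sq
  have hlm := slm q i
  have hlmb := q.lm_big i
  have hΓ := h.Γ i hi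
  have hσT : σ (i + 1) < T := (σmono h (by omega) le_rfl).trans_lt h.σT
  have hσ0 : 0 ≤ σ (i + 1) := σnn h (by omega)
  have htT : t < T := ht.2.trans_le hT
  rcases le_total t (σ (i + 1)) with h2 | h2
  · have := g.I_mono i ht.1 h2 hσT
    linarith
  · have ha := apos h (i + 1) (by omega)
    have hLp := sLp q i
    have h3 := Pr_le_lin (g.cabs i) (α := σ (i + 1)) (t := t)
      (c := L i * (120 * a (i + 1))) hσ0 htT h2 (fun τ hτ => by
        have h4 := (g.UB h hT h1 i (by omega)).2.2 hi τ ⟨hτ.1.le, hτ.2.trans ht.2⟩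
        have h6 := g.abs_le_sqrt (t := τ) ⟨hσ0.trans hτ.1.le, hτ.2.trans htT⟩ (le_refl i)
        have := h6.trans h4
        gcongr)
    have h4 := g.el' h h1 (i := i + 1) (by omega)
    have he := q.lm_succ i
    have hG := g.Gpos h (i + 1) (by omega)
    have h6 : (t - σ (i + 1)) * (L (i + 1) * a (i + 1))
        ≤ (t1 - σ (i + 1)) * (L (i + 1) * a (i + 1)) := by
      have := ht.2.le
      gcongr
    have h7 : ((t - σ (i + 1)) * (L i * a (i + 1))) * lm (i + 1)
        ≤ 233 / 10000 * lm (i + 1) := by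
      refine le_trans (le_of_eq ?_) (h6.trans h4)
      rw [← he]; ring
    have h8 := le_of_mul_le_mul_right h7 (slm q (i + 1))
    have h9 : L i * (120 * a (i + 1)) * (t - σ (i + 1)) ≤ 3 := by
      have : L i * (120 * a (i + 1)) * (t - σ (i + 1))
        = 120 * ((t - σ (i + 1)) * (L i * a (i + 1))) := by ring
      linarith
    unfold I at hΓ ⊢
    linarith

lemma preGs (g : Gd lm L C ℓ M B T x f) (h : Stg lm L T x n σ a) (hT : t1 ≤ T)
    (h1 : t1 ≤ σ n + 23 / 1000 * lm n / (L n * a n)) {t : ℝ}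
    (ht : t ∈ Ico 0 t1) : ∑ i ∈ Finset.range n, I L x i t ≤ 1 / 25 * (lm n / 100) := by
  calc ∑ i ∈ Finset.range n, I L x i t ≤ ∑ i ∈ Finset.range n, 1 / 25 * lm i := by
        refine Finset.sum_le_sum fun i hi => ?_
        have := g.preG h hT h1 (Finset.mem_range.1 hi) ht
        linarith
    _ = 1 / 25 * ∑ i ∈ Finset.range n, lm i := by rw [Finset.mul_sum]
    _ ≤ _ := by have := slmsum g.sq n; gcongr

/-- the sum of the integrals at the beginning of a stage -/
lemma preS (g : Gd lm L C ℓ M B T x f) (h : Stg lm L T x n σ a) :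
    I L x n (σ n) ≤ 102 / 10000 * lm n ∧
    ∑ i ∈ Finset.range (n + 1), I L x i (σ n) ≤ 106 / 10000 * lm n := by
  have q := g.sq
  have hlm := slm q n
  have h1 : I L x n (σ n) ≤ 102 / 10000 * lm n := by
    rcases n with _ | m
    · rw [h.σ0, I, Pr_zero]; positivity
    · exact h.J m (by omega)
  refine ⟨h1, ?_⟩
  rw [Finset.sum_range_succ]
  have hG := g.Gpos h n le_rfl
  have hp : 0 < 23 / 1000 * lm n / (L n * a n) := by positivity
  have h2 := g.preGs h (t1 := min T (σ n + 23 / 1000 * lm n / (L n * a n))) (min_le_left _ _)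
    (min_le_right _ _) (t := σ n) ⟨σnn h le_rfl, lt_min h.σT (by linarith)⟩
  linarith

lemma σle (g : Gd lm L C ℓ M B T x f) (h : Stg lm L T x n σ a) : σ n ≤ 233 / 10000 * lm 0 := by
  have hG := g.Gpos h n le_rfl
  have hlm := slm g.sq n
  have hp : 0 < 23 / 1000 * lm n / (L n * a n) := by positivity
  exact g.tot h (t1 := σ n) (by linarith)

/-- bounds for the tails up to the beginning of a stage -/
lemma preT (g : Gd lm L C ℓ M B T x f) (h : Stg lm L T x n σ a) : ∀ m, n ≤ m →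
    ∀ τ ∈ Icc 0 (σ n), √(Y x (m + 1) τ) ≤ eta lm m := by
  have h1 := (g.preS h).2
  have hlm := slm g.sq n
  have h2 := g.TBall (n := n) (t := σ n) ⟨σnn h le_rfl, h.σT⟩ (by
    have := g.σle h
    have := slm g.sq 0
    linarith) (by linarith)
  exact fun m hm => (h2 m hm).2

/-- the next mode is not very negative at the beginning of the stage -/
lemma preZ (g : Gd lm L C ℓ M B T x f) (h : Stg lm L T x n σ a) :
    -(C n / 8) ≤ x (n + 1) (σ n) / x n (σ n) := by
  have q := g.sq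
  have hlm := slm q n
  have ha := apos h n le_rfl
  have hσ0 : 0 ≤ σ n := σnn h le_rfl
  have hX : 0 < x n (σ n) := (by positivity : 0 < 995 / 1000 * a n).trans_le h.init
  have hE := EE_pos (lm := lm) n
  have hEb := EE_big q n
  have hL1 := sLp q (n + 1)
  have hC1 := sCp q (n + 1)
  rw [le_div_iff₀ hX]
  set ζ : ℝ := 1001 / 1000 * L (n + 1) * eta lm (n + 1) ^ 2 + ph lm (n + 1) with hζ
  have hph1 := ph_pos lm (n + 1)
  have hph0 := ph_pos lm 0
  have hζ0 : 0 ≤ ζ := by positivity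
  set w : ℝ := C (n + 1) * L (n + 1) + ph lm 0 with hw
  have hw0 : 0 ≤ w := by positivity
  have hT2 := g.preT h (n + 1) (by omega)
  have hsub : Icc 0 (σ n) ⊆ Ico 0 T := fun τ hτ => ⟨hτ.1, hτ.2.trans_lt h.σT⟩
  have h1 := pos_gron (g := fun τ => -(x (n + 1) τ))
    (g' := fun τ => -(vf3 L C ℓ B (fun k => x k τ) (n + 1) + f (n + 1) τ))
    (Q := fun τ => 1001 / 1000 * ∑ i ∈ Finset.range (n + 1), I L x i τ + w * τ)
    (Q' := fun τ => 1001 / 1000 * U L x (n + 1) τ + w) (b := σ n) (ζ := ζ) hσ0 hζ0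
    ((g.cont (n + 1)).mono hsub).neg
    (fun τ hτ => (g.derivAt (n + 1) ⟨hτ.1, hτ.2.trans h.σT⟩).fun_neg)
    (by
      refine ContinuousOn.add (continuousOn_const.mul ?_) (by fun_prop)
      exact continuousOn_finsetSum _ fun i _ => (Pr_cont (g.cabs i)).mono hsub)
    (fun τ hτ => by
      have h1 : HasDerivAt (fun τ => ∑ i ∈ Finset.range (n + 1), I L x i τ)
          (U L x (n + 1) τ) τ := by
        have := HasDerivAt.fun_sum (u := Finset.range (n + 1)) (A := fun i τ => I L x i τ)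
          (A' := fun i => L i * |x i τ|) (x := τ)
          (fun i _ => Pr_deriv (g.cabs i) ⟨hτ.1, hτ.2.trans h.σT⟩)
        exact this
      have h2 : HasDerivAt (fun τ : ℝ => w * τ) w τ := by
        simpa using (hasDerivAt_id τ).const_mul w
      exact (h1.const_mul _).fun_add h2)
    (fun τ hτ => by
      have := U_nonneg (x := x) q (n + 1) τ
      positivity)
    (by simp only [g.hn n]; simp)
    (fun τ hτ hneg => by
      have hτI : τ ∈ Ico 0 T := ⟨hτ.1.le, hτ.2.trans h.σT⟩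
      have h2 := g.vf_ge_neg hτI (n + 1) (by linarith)
      have h3 := g.abs_le_one hτI (n + 1 + 1)
      have h4 := hT2 τ ⟨hτ.1.le, hτ.2.le⟩
      have h5 : Y x (n + 1 + 1) τ ≤ eta lm (n + 1) ^ 2 := by
        calc Y x (n + 1 + 1) τ = √(Y x (n + 1 + 1) τ) ^ 2 := (Real.sq_sqrt (Y_nonneg _ _)).symm
          _ ≤ _ := by gcongr
      have h6 : |x (n + 1) τ| = -(x (n + 1) τ) := abs_of_nonpos (by linarith)
      rw [h6] at h2
      have h7 : (C (n + 1) * L (n + 1) * |x (n + 1 + 1) τ|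
        + 1001 / 1000 * U L x (n + 1) τ + ph lm 0) * -(x (n + 1) τ)
          ≤ (1001 / 1000 * U L x (n + 1) τ + w) * -(x (n + 1) τ) := by
        have h8 : C (n + 1) * L (n + 1) * |x (n + 1 + 1) τ| ≤ C (n + 1) * L (n + 1) * 1 := by
          gcongr
        exact mul_le_mul_of_nonneg_right (by rw [hw]; linarith) hneg
      have h8 : 1001 / 1000 * L (n + 1) * Y x (n + 1 + 1) τ
          ≤ 1001 / 1000 * L (n + 1) * eta lm (n + 1) ^ 2 := by gcongr
      rw [hζ]
      linarith)
  have hI0 : ∀ i, I L x i 0 = 0 := fun i => by rw [I, Pr_zero]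
  simp only [hI0, Finset.sum_const_zero, mul_zero, add_zero, sub_zero] at h1
  have hσlm := g.σle h
  have hσE : σ n ≤ EE lm n := by
    have := EE_lm' q (Nat.zero_le n)
    have := slm q 0
    linarith
  -- the exponent
  have hexp : 1001 / 1000 * ∑ i ∈ Finset.range (n + 1), I L x i (σ n) + w * σ n
      ≤ 107 / 10000 * lm n := by
    have h2 := (g.preS h).2
    have h3 : w * σ n ≤ 2 := by
      rw [hw, add_mul]
      have h4 := g.ph_time hσlm
      have h5 : C (n + 1) * L (n + 1) * σ n ≤ 1 / 10 ^ 20 := by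
        have h6 := C_small q (n + 1) 2 (by norm_num)
        have h7 := EE_L q (k := n + 1) (n := n + 1) (by omega)
        have h8 : σ n ≤ EE lm (n + 1) := by
          have := EE_lm' q (Nat.zero_le (n + 1))
          have := slm q 0
          linarith
        have := EE_pos (lm := lm) (n + 1)
        calc C (n + 1) * L (n + 1) * σ n ≤ C (n + 1) * EE lm (n + 1) * EE lm (n + 1) := by gcongr
          _ = EE lm (n + 1) ^ 2 * C (n + 1) := by ring
          _ ≤ _ := h6
      linarith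
    have := q.lm_big n
    linarith
  -- the force
  have hζle : ζ ≤ EE lm n ^ 2 * Real.exp (-(176 / 100) * lm n) := by
    have h2 := eta2 q n
    have h3 := EE_L q (k := n + 1) (n := n) (by omega)
    have h4 : ph lm (n + 1) ≤ Real.exp (-(176 / 100) * lm n) := by
      rw [ph_eq]
      refine (exp_next q n (by norm_num)).trans (Real.exp_le_exp.2 ?_)
      nlinarith
    have h5 := Real.exp_pos (-(176 / 100) * lm n)
    calc ζ ≤ 1001 / 1000 * EE lm n * Real.exp (-(176 / 100) * lm n)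
          + Real.exp (-(176 / 100) * lm n) := by
          rw [hζ]; gcongr
      _ = (1001 / 1000 * EE lm n + 1) * Real.exp (-(176 / 100) * lm n) := by ring
      _ ≤ _ := by
          gcongr
          nlinarith
  have hfin : -(x (n + 1) (σ n)) ≤ 1 / 10 * (C n * x n (σ n)) := by
    have h2 := g.aE h n le_rfl
    have h3 := h.init
    have h4 : 1 ≤ 2 * EE lm n * x n (σ n) := by
      calc (1 : ℝ) ≤ EE lm n * a n := h2
        _ ≤ EE lm n * (2 * x n (σ n)) := by gcongr; linarith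
        _ = _ := by ring
    have h5 := C_lo' q n
    calc -(x (n + 1) (σ n)) ≤ Real.exp (1001 / 1000 * ∑ i ∈ Finset.range (n + 1), I L x i (σ n)
          + w * σ n) * (ζ * σ n) := h1
      _ ≤ Real.exp (107 / 10000 * lm n) * ((EE lm n ^ 2 * Real.exp (-(176 / 100) * lm n))
            * EE lm n) := by gcongr
      _ = EE lm n ^ 3 * (Real.exp (107 / 10000 * lm n) * Real.exp (-(176 / 100) * lm n)) * 1 := by
          ring
      _ = EE lm n ^ 3 * Real.exp (-(17493 / 10000) * lm n) * 1 := by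
          rw [← Real.exp_add]; congr 3; ring
      _ ≤ EE lm n ^ 3 * Real.exp (-(17493 / 10000) * lm n) * (2 * EE lm n * x n (σ n)) := by
          gcongr
      _ = 1 / 10 * ((20 * EE lm n ^ 4 * Real.exp (-(17493 / 10000) * lm n)) * x n (σ n)) := by
          ring
      _ ≤ 1 / 10 * (C n * x n (σ n)) := by
          gcongr
          refine le_trans ?_ h5
          calc 20 * EE lm n ^ 4 * Real.exp (-(17493 / 10000) * lm n)
              ≤ EE lm n * EE lm n ^ 4 * Real.exp (-(17493 / 10000) * lm n) := by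
                gcongr; linarith
            _ = EE lm n ^ 5 * Real.exp (-(17493 / 10000) * lm n) := by ring
            _ ≤ _ := EE_exp q n 5 (by norm_num)
  have hCp := sCp q n
  have : 0 < C n * x n (σ n) := by positivity
  linarith

/-- everything during the current stage -/
lemma curAll (g : Gd lm L C ℓ M B T x f) (h : Stg lm L T x n σ a)
    (hc : Cur lm L T x n σ a t1) : ∀ t ∈ Ico (σ n) t1,
    ∑ i ∈ Finset.range (n + 2), I L x i t < 108 / 10000 * lm (n + 1) ∧
      -(x (n + 1) t / x n t) < C n / 4 := by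
  have q := g.sq
  have hlm := slm q n
  have hlmb := q.lm_big n
  have hlm1 := slm100 q n
  have h0 : 0 ≤ σ n := σnn h le_rfl
  have hsub : Ico (σ n) t1 ⊆ Ico 0 T := fun τ hτ => ⟨h0.trans hτ.1, hτ.2.trans_le hc.leT⟩
  have hr0 := g.preZ h
  have hC := sCp q n
  have hpre := g.preS h
  have htot := g.tot h hc.le
  have hlm0 := slm q 0
  have hJ0 : I L x (n + 1) (σ n) ≤ 1 := by
    have h1 := g.TBall (n := n) (t := σ n) ⟨h0, h.σT⟩ (by
      have := g.σle h
      linarith) (by linarith [hpre.2])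
    have h2 := h1 n le_rfl
    have h3 := Pr_le_lin (g.cabs (n + 1)) (α := 0) (t := σ n) (c := L (n + 1) * eta lm n) le_rfl
        h.σT h0 (fun τ hτ => by
          have h3 := (g.abs_le_sqrt (t := τ) ⟨hτ.1.le, hτ.2.trans h.σT⟩ (le_refl (n + 1))).trans
            (h2.2 τ ⟨hτ.1.le, hτ.2.le⟩)
          have := sLp q (n + 1)
          gcongr)
    rw [Pr_zero, sub_zero, sub_zero] at h3
    refine h3.trans ?_
    have hL := EE_L q (k := n + 1) (n := n) (by omega)
    have hσE : σ n ≤ EE lm n := by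
      have := EE_lm' q (Nat.zero_le n)
      have := g.σle h
      linarith
    have hLp := sLp q (n + 1)
    have he := eta_pos (lm := lm) n
    calc L (n + 1) * eta lm n * σ n ≤ EE lm n * eta lm n * EE lm n := by
          have := EE_pos (lm := lm) n
          gcongr
      _ = EE lm n ^ 2 * Real.exp (-(88 / 10000) * lm n) := by rw [eta]; ring
      _ ≤ Real.exp (0 * lm n) := EE_exp q n 2 (by norm_num)
      _ = 1 := by simp
  refine cont_ind3 ?_ ?_ ?_ ?_ ?_
  · exact continuousOn_finsetSum _ fun i _ => (Pr_cont (g.cabs i)).mono hsub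
  · exact (((g.cont (n + 1)).mono hsub).div ((g.cont n).mono hsub)
      fun τ hτ => (Xpos h hc hτ).ne').neg
  · rw [Finset.sum_range_succ]
    have := hpre.2
    linarith
  · linarith
  · intro t ht hP
    have hTB : ∀ τ ∈ Ico (σ n) t, √(Y x (n + 2) τ) ≤ eta lm (n + 1) := fun τ hτ => by
      have hτ1 : τ ∈ Ico (σ n) t1 := ⟨hτ.1, hτ.2.trans ht.2⟩
      exact g.TB (m := n + 1) (hsub hτ1) (by linarith [hτ1.2]) (hP τ hτ).1.le
    have hS := g.stage h hc ht hr0 (fun τ hτ => ⟨hTB τ hτ, (hP τ hτ).2⟩)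
    refine ⟨?_, by linarith [hS.2.2.2]⟩
    rw [Finset.sum_range_succ, Finset.sum_range_succ]
    have h1 := g.preGs h hc.leT hc.le (t := t) ⟨h0.trans ht.1.le, ht.2⟩
    have h2 := hS.2.1
    have h3 := hS.2.2.1
    linarith [hpre.1]

/-- conclusions for the current stage -/
lemma curC (g : Gd lm L C ℓ M B T x f) (h : Stg lm L T x n σ a)
    (hc : Cur lm L T x n σ a t1) : ∀ t ∈ Ioo (σ n) t1,
    99 / 100 * a n ≤ x n t ∧
    I L x n t ≤ 313 / 10000 * lm n ∧
    I L x (n + 1) t ≤ 102 / 10000 * lm (n + 1) ∧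
    -(C n / 8) ≤ x (n + 1) t / x n t ∧
    (t - σ n) * (L n * a n) ≤ 214 / 10000 * lm n ∧
    √(Y x (n + 2) t) ≤ eta lm (n + 1) := by
  intro t ht
  have q := g.sq
  have h0 : 0 ≤ σ n := σnn h le_rfl
  have hall := g.curAll h hc
  have hr0 := g.preZ h
  have htot := g.tot h hc.le
  have hlm0 := slm q 0
  have hlm1 := slm100 q n
  have hlmb := q.lm_big n
  have hsub : Ico (σ n) t1 ⊆ Ico 0 T := fun τ hτ => ⟨h0.trans hτ.1, hτ.2.trans_le hc.leT⟩
  have hTB : ∀ τ ∈ Ico (σ n) t1, √(Y x (n + 2) τ) ≤ eta lm (n + 1) := fun τ hτ =>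
    g.TB (m := n + 1) (hsub hτ) (by linarith [hτ.2]) (hall τ hτ).1.le
  have hP : ∀ τ ∈ Ico (σ n) t, √(Y x (n + 2) τ) ≤ eta lm (n + 1) ∧
      -(x (n + 1) τ / x n τ) < C n / 4 := fun τ hτ =>
    ⟨hTB τ ⟨hτ.1, hτ.2.trans ht.2⟩, (hall τ ⟨hτ.1, hτ.2.trans ht.2⟩).2⟩
  have hS := g.stage h hc ht hr0 hP
  have hpre := g.preS h
  have hJ0 : I L x (n + 1) (σ n) ≤ 1 / 10000 * lm (n + 1) := by
    have h1 := (hall (σ n) ⟨le_rfl, hc.lt⟩).1
    -- use the bound of the tails
    have h2 := g.preT h n le_rfl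
    have h3 := Pr_le_lin (g.cabs (n + 1)) (α := 0) (t := σ n) (c := L (n + 1) * eta lm n) le_rfl
        h.σT h0 (fun τ hτ => by
          have h3 := (g.abs_le_sqrt (t := τ) ⟨hτ.1.le, hτ.2.trans h.σT⟩ (le_refl (n + 1))).trans
            (h2 τ ⟨hτ.1.le, hτ.2.le⟩)
          have := sLp q (n + 1)
          gcongr)
    rw [Pr_zero, sub_zero, sub_zero] at h3
    refine h3.trans ?_
    have hL := EE_L q (k := n + 1) (n := n) (by omega)
    have hσE : σ n ≤ EE lm n := by
      have := EE_lm' q (Nat.zero_le n)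
      have := g.σle h
      linarith
    have hLp := sLp q (n + 1)
    have he := eta_pos (lm := lm) n
    calc L (n + 1) * eta lm n * σ n ≤ EE lm n * eta lm n * EE lm n := by
          have := EE_pos (lm := lm) n
          gcongr
      _ = EE lm n ^ 2 * Real.exp (-(88 / 10000) * lm n) := by rw [eta]; ring
      _ ≤ Real.exp (0 * lm n) := EE_exp q n 2 (by norm_num)
      _ = 1 := by simp
      _ ≤ _ := by linarith
  refine ⟨hS.1, ?_, ?_, hS.2.2.2, g.stage_time h hc ht hr0 hP, hTB t ⟨ht.1.le, ht.2⟩⟩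
  · linarith [hS.2.1, hpre.1]
  · linarith [hS.2.2.1]

end Gd

end Pool.Agent.Y5.D
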